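import Pool.Agent.H763.Defs

set_option autoImplicit false

open Filter Topology

namespace Pool.Agent.H763

section
variable {E W : Type} [NormedAddCommGroup E] [NormedSpace ℝ E] [NormedAddCommGroup W]
  [NormedSpace ℝ W] {A : E →ₗ[ℝ] E →ₗ[ℝ] W}

instance : TopologicalSpace (NG A) := TopologicalSpace.induced (fun x => (x.v, x.w)) inferInstance

theorem continuous_pair : Continuous (fun x : NG A => (x.v, x.w)) := continuous_induced_dom
theorem continuous_v : Continuous (fun x : NG A => x.v) := continuous_fst.comp continuous_pair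
theorem continuous_w : Continuous (fun x : NG A => x.w) := continuous_snd.comp continuous_pair

theorem continuous_mk {X : Type} [TopologicalSpace X] {f : X → E} {g : X → W} (hf : Continuous f)
    (hg : Continuous g) : Continuous (fun x => (⟨f x, g x⟩ : NG A)) := by
  rw [continuous_induced_rng]
  exact hf.prodMk hg

theorem tendsto_mk {X : Type} {l : Filter X} {f : X → NG A} {a : NG A}
    (hf : Tendsto (fun x => (f x).v) l (𝓝 a.v)) (hg : Tendsto (fun x => (f x).w) l (𝓝 a.w)) :
    Tendsto f l (𝓝 a) := by
  rw [nhds_induced, tendsto_comap_iff]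
  exact hf.prodMk_nhds hg

theorem continuous_A (hA : Good A) : Continuous (fun p : E × E => A p.1 p.2) := by
  let B : E →L[ℝ] E →L[ℝ] W := LinearMap.mkContinuous₂ A 2 hA.bd
  have : (fun p : E × E => A p.1 p.2) = fun p : E × E => B p.1 p.2 := by
    funext p
    rfl
  rw [this]
  exact B.continuous₂

theorem continuous_mulN (hA : Good A) : Continuous (fun p : NG A × NG A => p.1 * p.2) := by
  have h1 : Continuous (fun p : NG A × NG A => p.1.v) := continuous_v.comp continuous_fst
  have h2 : Continuous (fun p : NG A × NG A => p.2.v) := continuous_v.comp continuous_snd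
  have h3 : Continuous (fun p : NG A × NG A => p.1.w) := continuous_w.comp continuous_fst
  have h4 : Continuous (fun p : NG A × NG A => p.2.w) := continuous_w.comp continuous_snd
  exact continuous_mk (h1.add h2) ((h3.add h4).add ((continuous_A hA).comp (h1.prodMk h2)))

theorem continuous_invN (hA : Good A) : Continuous (fun p : NG A => p⁻¹) := by
  exact continuous_mk continuous_v.neg
    (continuous_w.neg.add ((continuous_A hA).comp (continuous_v.prodMk continuous_v)))

theorem continuous_ex : Continuous (fun v : E => (ex v : NG A)) :=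
  continuous_mk continuous_id continuous_const
theorem continuous_ce : Continuous (fun w : W => (ce w : NG A)) :=
  continuous_mk continuous_const continuous_id

theorem continuous_nm : Continuous (fun x : NG A => nm x) :=
  (continuous_v.norm).max (Real.continuous_sqrt.comp continuous_w.norm)

theorem continuous_dd (hA : Good A) : Continuous (fun p : NG A × NG A => dd p.1 p.2) :=
  continuous_nm.comp ((continuous_mulN hA).comp
    (((continuous_invN hA).comp continuous_fst).prodMk continuous_snd))

theorem tendsto_dd (hA : Good A) {X : Type} {l : Filter X} {f g : X → NG A} {a b : NG A}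
    (hf : Tendsto f l (𝓝 a)) (hg : Tendsto g l (𝓝 b)) :
    Tendsto (fun n => dd (f n) (g n)) l (𝓝 (dd a b)) := by
  have h := (continuous_dd hA).tendsto (a, b)
  have h2 := hf.prodMk_nhds hg
  have h3 := Tendsto.comp h h2
  exact h3

theorem norm_v_sub_le (x y : NG A) : ‖y.v - x.v‖ ≤ dd x y := by
  have := norm_v_le (x⁻¹ * y)
  rw [mul_v, inv_v, neg_add_eq_sub] at this
  exact this

end

section
variable {E W E' : Type} [NormedAddCommGroup E] [NormedSpace ℝ E] [NormedAddCommGroup W]
  [NormedSpace ℝ W] {A : E →ₗ[ℝ] E →ₗ[ℝ] W}
  [NormedAddCommGroup E']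

/-- a Lipschitz map is continuous -/
theorem continuous_of_lip (hA : Good A) {G : NG A → E'} {C : ℝ}
    (h : ∀ x y, ‖G x - G y‖ ≤ C * dd x y) : Continuous G := by
  rw [continuous_iff_continuousAt]
  intro x
  rw [ContinuousAt, tendsto_iff_norm_sub_tendsto_zero]
  have h1 : Tendsto (fun y => C * dd y x) (𝓝 x) (𝓝 0) := by
    have h2 : Continuous (fun y => C * dd y x) :=
      continuous_const.mul ((continuous_dd hA).comp (continuous_id.prodMk continuous_const))
    have h3 := h2.tendsto x
    simpa [dd_self] using h3
  exact squeeze_zero (fun y => norm_nonneg _) (fun y => h y x) h1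

end

theorem exists_ulim' {X : Type} [NormedAddCommGroup X] [ProperSpace X] (f : ℕ → X)
    (hf : ∃ R : ℝ, ∀ n, ‖f n‖ ≤ R) : ∃ l, Tendsto f (hyperfilter ℕ : Filter ℕ) (𝓝 l) := by
  obtain ⟨R, hR⟩ := hf
  have hc : IsCompact (Metric.closedBall (0 : X) R) := isCompact_closedBall 0 R
  have h1 : Tendsto f (hyperfilter ℕ : Filter ℕ) (𝓟 (Metric.closedBall (0 : X) R)) := by
    rw [tendsto_principal]
    exact Eventually.of_forall fun n => by simpa using hR n
  obtain ⟨l, -, hl⟩ := hc.ultrafilter_le_nhds ((hyperfilter ℕ).map f) h1
  exact ⟨l, hl⟩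

end Pool.Agent.H763
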