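import Pool.Agent.H763.RMean
import Pool.Agent.H763.Topo

set_option autoImplicit false

open Filter Topology

namespace Pool.Agent.H763

open Gardner (Bdd)

variable {E W W' : Type} [NormedAddCommGroup E] [NormedSpace ℝ E] [NormedAddCommGroup W]
  [NormedSpace ℝ W] {A : E →ₗ[ℝ] E →ₗ[ℝ] W} {m : ℕ}
  [NormedAddCommGroup W'] [NormedSpace ℝ W']
  {A' : (Fin m → ℝ) →ₗ[ℝ] (Fin m → ℝ) →ₗ[ℝ] W'}

/-- good base points -/
theorem exists_base (hA : Good A) (F : NG A → NG A') {C : ℝ}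
    (h1 : ∀ x y, dd (F x) (F y) ≤ C * dd x y + C) (p : ℕ → NG A × E) (n : ℕ) :
    ∃ k ≥ n, ∃ x : NG A, ∀ i < n, ∀ j : Fin m,
      sd (fun y => (F y).v j) (ex ((2 : ℝ) ^ k • (p i).2)) (x * dil ((2 : ℝ) ^ k) (p i).1) ^ 2 ≤
        4 ^ k / (n + 1) := by
  obtain ⟨M, hM⟩ := exists_rmean A
  have hu : ∀ j : Fin m, ∀ x y, |(F x).v j - (F y).v j| ≤ C * (dd x y + 1) := by
    intro j x y
    have e1 : |(F x).v j - (F y).v j| ≤ ‖(F x).v - (F y).v‖ := by
      have := norm_le_pi_norm ((F x).v - (F y).v) j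
      rwa [Pi.sub_apply, Real.norm_eq_abs] at this
    have e2 := norm_v_sub_le (F y) (F x)
    have e3 := h1 y x
    rw [dd_comm hA y x] at e3
    linarith
  let g : ℕ → ℕ × Fin m → NG A → ℝ := fun k ij x =>
    sd (fun y => (F y).v ij.2) (ex ((2 : ℝ) ^ k • (p ij.1).2)) x ^ 2
  have hg : ∀ k ij, Bdd (g k ij) := fun k ij => sd_bdd (hu ij.2) _
  let f : ℕ → ℕ × Fin m → NG A → ℝ := fun k ij x => g k ij (x * dil ((2 : ℝ) ^ k) (p ij.1).1)
  have hf : ∀ k ij, Bdd (f k ij) := by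
    intro k ij
    obtain ⟨D, hD⟩ := hg k ij
    exact ⟨D, fun x => hD _⟩
  have hMf : ∀ k ij, M (f k ij) = M (g k ij) := fun k ij => hM.inv (g k ij) _ (hg k ij)
  let s : Finset (ℕ × Fin m) := Finset.range n ×ˢ Finset.univ
  have htend : Tendsto (fun k : ℕ => ∑ ij ∈ s, M (g k ij) / 4 ^ k) atTop (𝓝 0) := by
    have : Tendsto (fun k : ℕ => ∑ ij ∈ s, M (g k ij) / 4 ^ k) atTop (𝓝 (∑ ij ∈ s, 0)) :=
      tendsto_finsetSum _ fun ij _ => defect_tendsto hA hM (hu ij.2) (p ij.1).2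
    simpa using this
  have hpos : (0 : ℝ) < 1 / (n + 1) := by positivity
  obtain ⟨k, hk1, hk2⟩ := ((htend.eventually (gt_mem_nhds hpos)).and (eventually_ge_atTop n)).exists
  have hsum := hM.sum s (f k) (hf k)
  have hlt : M (fun x => ∑ ij ∈ s, f k ij x) < 4 ^ k / (n + 1) := by
    rw [hsum.2]
    simp_rw [hMf]
    rw [← Finset.sum_div, div_lt_iff₀ (by positivity)] at hk1
    calc _ < 1 / ((n : ℝ) + 1) * 4 ^ k := hk1
      _ = 4 ^ k / (n + 1) := by ring
  obtain ⟨x, hx⟩ := hM.exists_lt hsum.1 hlt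
  refine ⟨k, hk2, x, fun i hi j => ?_⟩
  have hmem : (i, j) ∈ s := by simp [s, hi]
  have h2 := Finset.single_le_sum (f := fun ij => f k ij x) (s := s) (fun ij _ => sq_nonneg _) hmem
  exact h2.trans hx.le


/-- abstract blow-down along given base points and scales -/
theorem blow_lim [ProperSpace W']
    (hA' : Good A') (F : NG A → NG A') {c C : ℝ} (hC : 0 ≤ C)
    (h1 : ∀ x y, dd (F x) (F y) ≤ C * dd x y + C) (h2 : ∀ x y, c * dd x y - C ≤ dd (F x) (F y))
    (r : ℕ → ℝ) (hr1 : ∀ n, 1 ≤ r n) (hrt : Tendsto r atTop atTop) (x : ℕ → NG A) :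
    ∃ G : NG A → NG A', G 1 = 1 ∧ (∀ x y, dd (G x) (G y) ≤ C * dd x y) ∧
      (∀ x y, c * dd x y ≤ dd (G x) (G y)) ∧
      ∀ y, Tendsto (fun n => (r n)⁻¹ • (-(F (x n)).v + (F (x n * dil (r n) y)).v))
        (hyperfilter ℕ : Filter ℕ) (𝓝 (G y).v) := by
  have hr : ∀ n, 0 < r n := fun n => lt_of_lt_of_le one_pos (hr1 n)
  obtain ⟨Gn, hGn⟩ : ∃ Gn : ℕ → NG A → NG A', ∀ n y, Gn n y =
    dil (r n)⁻¹ ((F (x n))⁻¹ * F (x n * dil (r n) y)) := ⟨_, fun _ _ => rfl⟩
  have hdd : ∀ n y y', dd (Gn n y) (Gn n y') =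
      (r n)⁻¹ * dd (F (x n * dil (r n) y)) (F (x n * dil (r n) y')) := by
    intro n y y'
    rw [hGn, hGn, dd_dil, dd_left, abs_of_pos (inv_pos.2 (hr n))]
  have hddx : ∀ n y y', dd (x n * dil (r n) y) (x n * dil (r n) y') = r n * dd y y' := by
    intro n y y'
    rw [dd_left, dd_dil, abs_of_pos (hr n)]
  have hup : ∀ n y y', dd (Gn n y) (Gn n y') ≤ C * dd y y' + C * (r n)⁻¹ := by
    intro n y y'
    rw [hdd]
    have := h1 (x n * dil (r n) y) (x n * dil (r n) y')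
    rw [hddx] at this
    calc (r n)⁻¹ * dd (F (x n * dil (r n) y)) (F (x n * dil (r n) y'))
        ≤ (r n)⁻¹ * (C * (r n * dd y y') + C) :=
          mul_le_mul_of_nonneg_left this (inv_nonneg.2 (hr n).le)
      _ = C * dd y y' + C * (r n)⁻¹ := by
          have := (hr n).ne'
          field_simp
  have hlo : ∀ n y y', c * dd y y' - C * (r n)⁻¹ ≤ dd (Gn n y) (Gn n y') := by
    intro n y y'
    rw [hdd]
    have := h2 (x n * dil (r n) y) (x n * dil (r n) y')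
    rw [hddx] at this
    calc c * dd y y' - C * (r n)⁻¹ = (r n)⁻¹ * (c * (r n * dd y y') - C) := by
          have := (hr n).ne'
          field_simp
      _ ≤ _ := mul_le_mul_of_nonneg_left this (inv_nonneg.2 (hr n).le)
  have hG1 : ∀ n, Gn n 1 = 1 := by
    intro n
    rw [hGn, dil_one', mul_one, inv_mul_cancel, dil_one']
  have hbd : ∀ n y, nm (Gn n y) ≤ C * nm y + C := by
    intro n y
    have := hup n 1 y
    rw [hG1, dd_one_left, dd_one_left] at this
    have h3 : C * (r n)⁻¹ ≤ C * 1 := by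
      apply mul_le_mul_of_nonneg_left _ hC
      exact inv_le_one_of_one_le₀ (hr1 n)
    linarith
  have hV : ∀ y, ∃ l, Tendsto (fun n => (Gn n y).v) (hyperfilter ℕ : Filter ℕ) (𝓝 l) := fun y =>
    exists_ulim' _ ⟨C * nm y + C, fun n => (norm_v_le _).trans (hbd n y)⟩
  have hW : ∀ y, ∃ l, Tendsto (fun n => (Gn n y).w) (hyperfilter ℕ : Filter ℕ) (𝓝 l) := fun y =>
    exists_ulim' _ ⟨(C * nm y + C) ^ 2, fun n => (norm_w_le _).trans
      (pow_le_pow_left₀ (nm_nonneg _) (hbd n y) 2)⟩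
  choose V hV using hV
  choose Wl hW using hW
  have hlim : ∀ y, Tendsto (fun n => Gn n y) (hyperfilter ℕ : Filter ℕ) (𝓝 (⟨V y, Wl y⟩ : NG A')) :=
    fun y => tendsto_mk (hV y) (hW y)
  have hlimd : ∀ y y', Tendsto (fun n => dd (Gn n y) (Gn n y')) (hyperfilter ℕ : Filter ℕ)
      (𝓝 (dd (⟨V y, Wl y⟩ : NG A') ⟨V y', Wl y'⟩)) := fun y y' =>
    tendsto_dd hA' (hlim y) (hlim y')
  have hU : (hyperfilter ℕ : Filter ℕ) ≤ atTop := Nat.hyperfilter_le_atTop
  have hri : Tendsto (fun n => C * (r n)⁻¹) (hyperfilter ℕ : Filter ℕ) (𝓝 0) := by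
    have := (tendsto_inv_atTop_zero.comp hrt).const_mul C
    rw [mul_zero] at this
    exact this.mono_left hU
  refine ⟨fun y => ⟨V y, Wl y⟩, ?_, ?_, ?_, ?_⟩
  · ext1
    · have h3 := hV 1
      simp_rw [hG1] at h3
      exact tendsto_nhds_unique h3 tendsto_const_nhds
    · have h3 := hW 1
      simp_rw [hG1] at h3
      exact tendsto_nhds_unique h3 tendsto_const_nhds
  · intro y y'
    have h3 : Tendsto (fun n => C * dd y y' + C * (r n)⁻¹) (hyperfilter ℕ : Filter ℕ)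
        (𝓝 (C * dd y y' + 0)) := hri.const_add _
    rw [add_zero] at h3
    exact le_of_tendsto_of_tendsto' (hlimd y y') h3 (fun n => hup n y y')
  · intro y y'
    have h3 : Tendsto (fun n => c * dd y y' - C * (r n)⁻¹) (hyperfilter ℕ : Filter ℕ)
        (𝓝 (c * dd y y' - 0)) := hri.const_sub _
    rw [sub_zero] at h3
    exact le_of_tendsto_of_tendsto' h3 (hlimd y y') (fun n => hlo n y y')
  · intro y
    have h3 := hV y
    simp only [hGn, dil_v, mul_v, inv_v] at h3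
    exact h3

theorem blowdown [SecondCountableTopology E] [SecondCountableTopology W] [ProperSpace W']
    (hA : Good A) (hA' : Good A') (F : NG A → NG A') {c C : ℝ} (hC : 0 ≤ C)
    (h1 : ∀ x y, dd (F x) (F y) ≤ C * dd x y + C) (h2 : ∀ x y, c * dd x y - C ≤ dd (F x) (F y)) :
    ∃ G : NG A → NG A', G 1 = 1 ∧ (∀ x y, dd (G x) (G y) ≤ C * dd x y) ∧
      (∀ x y, c * dd x y ≤ dd (G x) (G y)) ∧
      ∀ x v, (G (x * ex v * ex v)).v - (2 : ℝ) • (G (x * ex v)).v + (G x).v = 0 := by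
  obtain ⟨q, hq⟩ : ∃ q : ℕ → (E × W) × E, DenseRange q :=
    ⟨_, TopologicalSpace.denseRange_denseSeq ((E × W) × E)⟩
  choose k hk x hx using exists_base hA F h1 (fun i => ((⟨(q i).1.1, (q i).1.2⟩ : NG A), (q i).2))
  obtain ⟨r, hrk⟩ : ∃ r : ℕ → ℝ, ∀ n, (2 : ℝ) ^ (k n) = r n := ⟨_, fun _ => rfl⟩
  have hr1 : ∀ n, 1 ≤ r n := fun n => by rw [← hrk]; exact one_le_pow₀ (by norm_num)
  have hr : ∀ n, 0 < r n := fun n => lt_of_lt_of_le one_pos (hr1 n)
  have hrt : Tendsto r atTop atTop := by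
    have : Tendsto (fun n : ℕ => (2 : ℝ) ^ n) atTop atTop :=
      tendsto_pow_atTop_atTop_of_one_lt (by norm_num)
    refine tendsto_atTop_mono (fun n => ?_) this
    rw [← hrk]
    exact pow_le_pow_right₀ (by norm_num) (hk n)
  have hr4 : ∀ n, (4 : ℝ) ^ (k n) = r n ^ 2 := by
    intro n
    rw [← hrk, ← pow_mul, mul_comm, pow_mul]
    norm_num
  simp only [hrk, hr4] at hx
  obtain ⟨G, hG1, hGup, hGlo, hlim⟩ := blow_lim hA' F hC h1 h2 r hr1 hrt x
  refine ⟨G, hG1, hGup, hGlo, ?_⟩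
  have hU : (hyperfilter ℕ : Filter ℕ) ≤ atTop := Nat.hyperfilter_le_atTop
  have hGc : Continuous (fun y => (G y).v) := by
    refine continuous_of_lip hA (C := C) fun a b => ?_
    have e1 := norm_v_sub_le (G b) (G a)
    have e2 := hGup b a
    rw [dd_comm hA b a] at e2
    exact e1.trans e2
  have c1 : Continuous (fun z : (E × W) × E => (⟨z.1.1, z.1.2⟩ : NG A)) :=
    continuous_mk (continuous_fst.comp continuous_fst) (continuous_snd.comp continuous_fst)
  have c2 : Continuous (fun z : (E × W) × E => (ex z.2 : NG A)) :=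
    continuous_ex.comp continuous_snd
  have c3 : Continuous (fun z : (E × W) × E => (⟨z.1.1, z.1.2⟩ : NG A) * ex z.2) :=
    (continuous_mulN hA).comp (c1.prodMk c2)
  have c4 : Continuous (fun z : (E × W) × E => (⟨z.1.1, z.1.2⟩ : NG A) * ex z.2 * ex z.2) :=
    (continuous_mulN hA).comp (c3.prodMk c2)
  have d1 := hGc.comp c1
  have d3 := hGc.comp c3
  have d4 := hGc.comp c4
  have hΨ := (d4.sub (d3.const_smul (2 : ℝ))).add d1
  have hz : ∀ i, (G ((⟨(q i).1.1, (q i).1.2⟩ : NG A) * ex (q i).2 * ex (q i).2)).v -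
      (2 : ℝ) • (G ((⟨(q i).1.1, (q i).1.2⟩ : NG A) * ex (q i).2)).v +
      (G (⟨(q i).1.1, (q i).1.2⟩ : NG A)).v = 0 := by
    intro i
    obtain ⟨h, hh⟩ : ∃ h : NG A, h = ⟨(q i).1.1, (q i).1.2⟩ := ⟨_, rfl⟩
    obtain ⟨v, hv⟩ : ∃ v : E, v = (q i).2 := ⟨_, rfl⟩
    have hxi : ∀ n, i < n → ∀ j : Fin m, sd (fun y => (F y).v j) (ex (r n • v))
        (x n * dil (r n) h) ^ 2 ≤ r n ^ 2 / (n + 1) := by
      intro n hn j
      rw [hh, hv]
      exact hx n i hn j
    rw [← hh, ← hv]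
    funext j
    have t : ∀ y, Tendsto (fun n => (r n)⁻¹ * (-(F (x n)).v j + (F (x n * dil (r n) y)).v j))
        (hyperfilter ℕ : Filter ℕ) (𝓝 ((G y).v j)) := by
      intro y
      have := ((continuous_apply j).tendsto (G y).v).comp (hlim y)
      exact this
    have hT := ((t (h * ex v * ex v)).sub ((t (h * ex v)).const_mul 2)).add (t h)
    have hT2 := hT.pow 2
    have hle : ∀ᶠ n in (hyperfilter ℕ : Filter ℕ),
        ((r n)⁻¹ * (-(F (x n)).v j + (F (x n * dil (r n) (h * ex v * ex v))).v j) -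
          2 * ((r n)⁻¹ * (-(F (x n)).v j + (F (x n * dil (r n) (h * ex v))).v j)) +
          (r n)⁻¹ * (-(F (x n)).v j + (F (x n * dil (r n) h)).v j)) ^ 2 ≤ 1 / ((n : ℝ) + 1) := by
      apply hU
      filter_upwards [eventually_gt_atTop i] with n hn
      have e0 := hxi n hn j
      have e2 : (r n)⁻¹ * (-(F (x n)).v j + (F (x n * dil (r n) (h * ex v * ex v))).v j) -
          2 * ((r n)⁻¹ * (-(F (x n)).v j + (F (x n * dil (r n) (h * ex v))).v j)) +
          (r n)⁻¹ * (-(F (x n)).v j + (F (x n * dil (r n) h)).v j) =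
          (r n)⁻¹ * sd (fun y => (F y).v j) (ex (r n • v)) (x n * dil (r n) h) := by
        rw [dil_mul, dil_mul, dil_ex, ← mul_assoc, ← mul_assoc]
        unfold sd
        ring
      rw [e2, mul_pow]
      have hrn := (hr n).ne'
      calc ((r n)⁻¹) ^ 2 * sd (fun y => (F y).v j) (ex (r n • v)) (x n * dil (r n) h) ^ 2
          ≤ ((r n)⁻¹) ^ 2 * (r n ^ 2 / ((n : ℝ) + 1)) :=
            mul_le_mul_of_nonneg_left e0 (sq_nonneg _)
        _ = 1 / ((n : ℝ) + 1) := by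
            have : (n : ℝ) + 1 ≠ 0 := by positivity
            field_simp
    have hz2 : Tendsto (fun n : ℕ => 1 / ((n : ℝ) + 1)) (hyperfilter ℕ : Filter ℕ) (𝓝 0) :=
      tendsto_one_div_add_atTop_nhds_zero_nat.mono_left hU
    have := le_of_tendsto_of_tendsto hT2 hz2 hle
    have h0 := le_antisymm this (sq_nonneg _)
    have h00 := pow_eq_zero_iff (two_ne_zero) |>.1 h0
    simpa using h00
  have hall := Continuous.ext_on hq hΨ (continuous_const (y := (0 : Fin m → ℝ))) (by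
    rintro _ ⟨i, rfl⟩
    exact hz i)
  intro y v
  exact congrFun hall ((y.v, y.w), v)

end Pool.Agent.H763
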