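import Mathlib

set_option autoImplicit false

namespace Pool.Agent.H763

/-- two step nilpotent group attached to a bilinear map `A` -/
@[ext] structure NG {E W : Type} [AddCommGroup E] [Module ℝ E] [AddCommGroup W] [Module ℝ W]
    (A : E →ₗ[ℝ] E →ₗ[ℝ] W) where
  v : E
  w : W

section grp
variable {E W : Type} [AddCommGroup E] [Module ℝ E] [AddCommGroup W] [Module ℝ W]
  {A : E →ₗ[ℝ] E →ₗ[ℝ] W}

instance : Mul (NG A) := ⟨fun x y => ⟨x.v + y.v, x.w + y.w + A x.v y.v⟩⟩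
instance : One (NG A) := ⟨⟨0, 0⟩⟩
instance : Inv (NG A) := ⟨fun x => ⟨-x.v, -x.w + A x.v x.v⟩⟩

@[simp] theorem mul_v (x y : NG A) : (x * y).v = x.v + y.v := rfl
@[simp] theorem mul_w (x y : NG A) : (x * y).w = x.w + y.w + A x.v y.v := rfl
@[simp] theorem one_v : (1 : NG A).v = 0 := rfl
@[simp] theorem one_w : (1 : NG A).w = 0 := rfl
@[simp] theorem inv_v (x : NG A) : (x⁻¹).v = -x.v := rfl
@[simp] theorem inv_w (x : NG A) : (x⁻¹).w = -x.w + A x.v x.v := rfl

instance : Group (NG A) where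
  mul_assoc x y z := by
    ext
    · simp [add_assoc]
    · simp; abel
  one_mul x := by ext <;> simp
  mul_one x := by ext <;> simp
  inv_mul_cancel x := by ext <;> simp

/-- dilations -/
def dil (r : ℝ) (x : NG A) : NG A := ⟨r • x.v, (r ^ 2) • x.w⟩

@[simp] theorem dil_v (r : ℝ) (x : NG A) : (dil r x).v = r • x.v := rfl
@[simp] theorem dil_w (r : ℝ) (x : NG A) : (dil r x).w = (r ^ 2) • x.w := rfl

theorem dil_mul (r : ℝ) (x y : NG A) : dil r (x * y) = dil r x * dil r y := by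
  ext
  · simp
  · simp [smul_smul, sq]

@[simp] theorem dil_one' (r : ℝ) : dil r (1 : NG A) = 1 := by ext <;> simp

theorem dil_inv (r : ℝ) (x : NG A) : dil r x⁻¹ = (dil r x)⁻¹ := by
  ext
  · simp
  · simp [smul_smul, sq]

theorem dil_dil (r s : ℝ) (x : NG A) : dil r (dil s x) = dil (r * s) x := by
  ext
  · simp [smul_smul]
  · simp [smul_smul, mul_pow]

@[simp] theorem dil_one (x : NG A) : dil 1 x = x := by ext <;> simp

/-- horizontal exponential -/
def ex (v : E) : NG A := ⟨v, 0⟩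
@[simp] theorem ex_v (v : E) : (ex v : NG A).v = v := rfl
@[simp] theorem ex_w (v : E) : (ex v : NG A).w = 0 := rfl
/-- central exponential -/
def ce (w : W) : NG A := ⟨0, w⟩
@[simp] theorem ce_v (w : W) : (ce w : NG A).v = 0 := rfl
@[simp] theorem ce_w (w : W) : (ce w : NG A).w = w := rfl

theorem dil_ex (r : ℝ) (v : E) : dil r (ex v : NG A) = ex (r • v) := by ext <;> simp

end grp

section metric
variable {E W : Type} [NormedAddCommGroup E] [NormedSpace ℝ E] [NormedAddCommGroup W]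
  [NormedSpace ℝ W] {A : E →ₗ[ℝ] E →ₗ[ℝ] W}

/-- homogeneous norm -/
noncomputable def nm (x : NG A) : ℝ := max ‖x.v‖ (Real.sqrt ‖x.w‖)

/-- left invariant distance -/
noncomputable def dd (x y : NG A) : ℝ := nm (x⁻¹ * y)

/-- the standing hypotheses on the bracket -/
structure Good (A : E →ₗ[ℝ] E →ₗ[ℝ] W) : Prop where
  alt : ∀ v, A v v = 0
  bd : ∀ v v', ‖A v v'‖ ≤ 2 * ‖v‖ * ‖v'‖

theorem nm_nonneg (x : NG A) : 0 ≤ nm x := le_max_of_le_left (norm_nonneg _)
theorem norm_v_le (x : NG A) : ‖x.v‖ ≤ nm x := le_max_left _ _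
theorem sqrt_w_le (x : NG A) : Real.sqrt ‖x.w‖ ≤ nm x := le_max_right _ _
theorem norm_w_le (x : NG A) : ‖x.w‖ ≤ nm x ^ 2 := by
  have h := sqrt_w_le x
  calc ‖x.w‖ = Real.sqrt ‖x.w‖ ^ 2 := (Real.sq_sqrt (norm_nonneg _)).symm
    _ ≤ nm x ^ 2 := by gcongr
theorem nm_le {x : NG A} {r : ℝ} (hr : 0 ≤ r) (h1 : ‖x.v‖ ≤ r) (h2 : ‖x.w‖ ≤ r ^ 2) :
    nm x ≤ r := by
  apply max_le h1
  rw [Real.sqrt_le_left hr]
  exact h2

@[simp] theorem nm_one : nm (1 : NG A) = 0 := by simp [nm]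

theorem nm_dil (r : ℝ) (x : NG A) : nm (dil r x) = |r| * nm x := by
  unfold nm
  rw [dil_v, dil_w, norm_smul, norm_smul, Real.norm_eq_abs, Real.norm_eq_abs, Real.sqrt_mul (abs_nonneg _),
    abs_pow, Real.sqrt_sq (abs_nonneg r), mul_max_of_nonneg _ _ (abs_nonneg r)]

theorem nm_mul (hA : Good A) (x y : NG A) : nm (x * y) ≤ nm x + nm y := by
  have hx := nm_nonneg x
  have hy := nm_nonneg y
  apply nm_le (by positivity)
  · exact (norm_add_le _ _).trans (add_le_add (norm_v_le x) (norm_v_le y))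
  · rw [mul_w]
    calc ‖x.w + y.w + A x.v y.v‖ ≤ ‖x.w‖ + ‖y.w‖ + ‖A x.v y.v‖ :=
          (norm_add_le _ _).trans (add_le_add (norm_add_le _ _) le_rfl)
      _ ≤ nm x ^ 2 + nm y ^ 2 + 2 * nm x * nm y := by
          have h3 := hA.bd x.v y.v
          have h4 : 2 * ‖x.v‖ * ‖y.v‖ ≤ 2 * nm x * nm y := by
            gcongr
            · exact norm_v_le x
            · exact norm_v_le y
          have h1 := norm_w_le x
          have h2 := norm_w_le y
          linarith
      _ = (nm x + nm y) ^ 2 := by ring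

theorem nm_inv (hA : Good A) (x : NG A) : nm x⁻¹ = nm x := by
  unfold nm
  rw [inv_v, inv_w, hA.alt, add_zero, norm_neg, norm_neg]

theorem dd_self (x : NG A) : dd x x = 0 := by simp [dd]
theorem dd_nonneg (x y : NG A) : 0 ≤ dd x y := nm_nonneg _
theorem dd_comm (hA : Good A) (x y : NG A) : dd x y = dd y x := by
  unfold dd
  rw [← nm_inv hA, mul_inv_rev, inv_inv]
theorem dd_tri (hA : Good A) (x y z : NG A) : dd x z ≤ dd x y + dd y z := by
  unfold dd
  have : x⁻¹ * z = (x⁻¹ * y) * (y⁻¹ * z) := by group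
  rw [this]
  exact nm_mul hA _ _
theorem dd_left (g x y : NG A) : dd (g * x) (g * y) = dd x y := by
  unfold dd
  congr 1
  group
theorem dd_dil (r : ℝ) (x y : NG A) : dd (dil r x) (dil r y) = |r| * dd x y := by
  unfold dd
  rw [← dil_inv, ← dil_mul, nm_dil]
theorem dd_one_left (x : NG A) : dd 1 x = nm x := by simp [dd]
theorem dd_eq_zero {x y : NG A} (h : dd x y = 0) : x = y := by
  have h1 : ‖(x⁻¹ * y).v‖ ≤ 0 := by rw [← h]; exact norm_v_le _
  have h2 : ‖(x⁻¹ * y).w‖ ≤ 0 := by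
    have := norm_w_le (x⁻¹ * y)
    change ‖_‖ ≤ dd x y ^ 2 at this
    rw [h] at this
    simpa using this
  have h3 : x⁻¹ * y = 1 := by
    ext
    · simpa using norm_le_zero_iff.1 h1
    · exact norm_le_zero_iff.1 h2
  exact (inv_mul_eq_one.1 h3)

end metric

end Pool.Agent.H763
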