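import Pool.Agent.H763.Hom

set_option autoImplicit false

namespace Pool.Agent.H763

abbrev ER := Fin 8 → ℝ
abbrev WR := Fin 2 → ℝ

/-- even index -/
def ie (i : Fin 4) : Fin 8 := ⟨2 * i.1, by omega⟩
/-- odd index -/
def io (i : Fin 4) : Fin 8 := ⟨2 * i.1 + 1, by omega⟩

/-- the four directions -/
def wd (s : ℝ) : Fin 4 → WR := ![![1, 0], ![0, 1], ![1, 1], ![1, s]]

/-- symplectic pieces -/
noncomputable def pp (i : Fin 4) (v v' : ER) : ℝ := (v (ie i) * v' (io i) - v (io i) * v' (ie i)) / 5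

/-- the bracket -/
noncomputable def AA (s : ℝ) : ER →ₗ[ℝ] ER →ₗ[ℝ] WR :=
  LinearMap.mk₂ ℝ (fun v v' => ∑ i, pp i v v' • wd s i)
    (by
      intro a b c
      rw [← Finset.sum_add_distrib]
      refine Finset.sum_congr rfl fun i _ => ?_
      rw [← add_smul]
      congr 1
      simp only [pp, Pi.add_apply]
      ring)
    (by
      intro r a b
      rw [Finset.smul_sum]
      refine Finset.sum_congr rfl fun i _ => ?_
      rw [smul_smul]
      congr 1
      simp only [pp, Pi.smul_apply, smul_eq_mul]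
      ring)
    (by
      intro a b c
      rw [← Finset.sum_add_distrib]
      refine Finset.sum_congr rfl fun i _ => ?_
      rw [← add_smul]
      congr 1
      simp only [pp, Pi.add_apply]
      ring)
    (by
      intro r a b
      rw [Finset.smul_sum]
      refine Finset.sum_congr rfl fun i _ => ?_
      rw [smul_smul]
      congr 1
      simp only [pp, Pi.smul_apply, smul_eq_mul]
      ring)

theorem AA_apply (s : ℝ) (v v' : ER) : AA s v v' = ∑ i, pp i v v' • wd s i := rfl

theorem pp_bd (i : Fin 4) (v v' : ER) : |pp i v v'| ≤ 2 / 5 * ‖v‖ * ‖v'‖ := by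
  have h1 : ∀ k, |v k| ≤ ‖v‖ := fun k => by
    have := norm_le_pi_norm v k
    rwa [Real.norm_eq_abs] at this
  have h2 : ∀ k, |v' k| ≤ ‖v'‖ := fun k => by
    have := norm_le_pi_norm v' k
    rwa [Real.norm_eq_abs] at this
  unfold pp
  rw [abs_div, abs_of_pos (by norm_num : (0 : ℝ) < 5)]
  have h3 : |v (ie i) * v' (io i) - v (io i) * v' (ie i)| ≤ ‖v‖ * ‖v'‖ + ‖v‖ * ‖v'‖ := by
    refine (abs_sub _ _).trans ?_
    rw [abs_mul, abs_mul]
    exact add_le_add (mul_le_mul (h1 _) (h2 _) (abs_nonneg _) (norm_nonneg _))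
      (mul_le_mul (h1 _) (h2 _) (abs_nonneg _) (norm_nonneg _))
  rw [div_le_iff₀ (by norm_num)]
  linarith

theorem good_AA {s : ℝ} (h0 : 0 ≤ s) (h3 : s ≤ 3) : Good (AA s) := by
  constructor
  · intro v
    rw [AA_apply]
    refine Finset.sum_eq_zero fun i _ => ?_
    have : pp i v v = 0 := by unfold pp; ring
    rw [this, zero_smul]
  · intro v v'
    have hp := fun i => pp_bd i v v'
    have hN : 0 ≤ ‖v‖ * ‖v'‖ := by positivity
    rw [pi_norm_le_iff_of_nonneg (by positivity)]
    intro k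
    rw [AA_apply, Fin.sum_univ_four, Real.norm_eq_abs]
    have a0 := abs_le.1 (hp 0)
    have a1 := abs_le.1 (hp 1)
    have a2 := abs_le.1 (hp 2)
    have a3 := abs_le.1 (hp 3)
    have b3 : |s * pp 3 v v'| ≤ 3 * (2 / 5 * ‖v‖ * ‖v'‖) := by
      rw [abs_mul, abs_of_nonneg h0]
      exact mul_le_mul h3 (hp 3) (abs_nonneg _) (by norm_num)
    have b3' := abs_le.1 b3
    fin_cases k
    · simp [wd]
      rw [abs_le]
      constructor <;> nlinarith [a0.1, a0.2, a2.1, a2.2, a3.1, a3.2]
    · simp [wd]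
      rw [abs_le]
      constructor <;> nlinarith [a1.1, a1.2, a2.1, a2.2, b3'.1, b3'.2]

theorem ie_ne_io (i j : Fin 4) : ie i ≠ io j := by
  intro h
  have := congrArg Fin.val h
  simp [ie, io] at this
  omega
theorem ie_inj {i j : Fin 4} (h : ie i = ie j) : i = j := by
  have := congrArg Fin.val h
  simp [ie] at this
  exact Fin.ext this
theorem io_inj {i j : Fin 4} (h : io i = io j) : i = j := by
  have := congrArg Fin.val h
  simp [io] at this
  exact Fin.ext this
theorem idx_cases (k : Fin 8) : ∃ i, k = ie i ∨ k = io i := by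
  refine ⟨⟨k.1 / 2, by omega⟩, ?_⟩
  rcases Nat.even_or_odd k.1 with h | h
  · left
    apply Fin.ext
    simp [ie]
    obtain ⟨m, hm⟩ := h
    omega
  · right
    apply Fin.ext
    simp [io]
    obtain ⟨m, hm⟩ := h
    omega

theorem pp_single_e (i j : Fin 4) (v : ER) :
    pp i (Pi.single (ie j) 1) v = if i = j then v (io j) / 5 else 0 := by
  unfold pp
  by_cases h : i = j
  · subst h
    rw [if_pos rfl, Pi.single_eq_same, Pi.single_eq_of_ne (ie_ne_io i i).symm]
    ring
  · rw [if_neg h, Pi.single_eq_of_ne (fun h' => h (ie_inj h')), Pi.single_eq_of_ne (ie_ne_io j i).symm]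
    ring
theorem pp_single_o' (i j : Fin 4) (v : ER) :
    pp i v (Pi.single (io j) 1) = if i = j then v (ie j) / 5 else 0 := by
  unfold pp
  by_cases h : i = j
  · subst h
    rw [if_pos rfl, Pi.single_eq_same, Pi.single_eq_of_ne (ie_ne_io i i)]
    ring
  · rw [if_neg h, Pi.single_eq_of_ne (fun h' => h (io_inj h')), Pi.single_eq_of_ne (ie_ne_io i j)]
    ring
theorem pp_single_e' (i j : Fin 4) (v : ER) :
    pp i v (Pi.single (ie j) 1) = if i = j then - v (io j) / 5 else 0 := by
  unfold pp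
  by_cases h : i = j
  · subst h
    rw [if_pos rfl, Pi.single_eq_same, Pi.single_eq_of_ne (ie_ne_io i i).symm]
    ring
  · rw [if_neg h, Pi.single_eq_of_ne (fun h' => h (ie_inj h')), Pi.single_eq_of_ne (ie_ne_io j i).symm]
    ring

theorem AA_single_e (s : ℝ) (j : Fin 4) (v : ER) :
    AA s (Pi.single (ie j) 1) v = (v (io j) / 5) • wd s j := by
  rw [AA_apply, Finset.sum_eq_single j]
  · rw [pp_single_e, if_pos rfl]
  · intro i _ hi
    rw [pp_single_e, if_neg hi, zero_smul]
  · intro h; exact absurd (Finset.mem_univ _) h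
theorem AA_single_o' (s : ℝ) (j : Fin 4) (v : ER) :
    AA s v (Pi.single (io j) 1) = (v (ie j) / 5) • wd s j := by
  rw [AA_apply, Finset.sum_eq_single j]
  · rw [pp_single_o', if_pos rfl]
  · intro i _ hi
    rw [pp_single_o', if_neg hi, zero_smul]
  · intro h; exact absurd (Finset.mem_univ _) h
theorem AA_single_e' (s : ℝ) (j : Fin 4) (v : ER) :
    AA s v (Pi.single (ie j) 1) = (- v (io j) / 5) • wd s j := by
  rw [AA_apply, Finset.sum_eq_single j]
  · rw [pp_single_e', if_pos rfl]
  · intro i _ hi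
    rw [pp_single_e', if_neg hi, zero_smul]
  · intro h; exact absurd (Finset.mem_univ _) h

theorem span_AA (s : ℝ) (w : WR) :
    w ∈ AddSubgroup.closure {w : WR | ∃ v v', w = AA s v v'} := by
  have h0 : ∀ (j : Fin 4) (c : ℝ), c • wd s j ∈ AddSubgroup.closure {w : WR | ∃ v v', w = AA s v v'} := by
    intro j c
    apply AddSubgroup.subset_closure
    refine ⟨(5 * c) • Pi.single (ie j) 1, Pi.single (io j) 1, ?_⟩
    rw [AA_single_o']
    congr 1
    simp
  have h1 : w = w 0 • wd s 0 + w 1 • wd s 1 := by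
    funext k
    fin_cases k <;> simp [wd]
  rw [h1]
  exact AddSubgroup.add_mem _ (h0 0 _) (h0 1 _)

/-- the relation between parameters coming from a graded embedding -/
def Rel (s t : ℝ) (σ : Fin 4 → Fin 4) : Prop :=
  ∃ Φ : WR →ₗ[ℝ] WR, Function.Injective Φ ∧ ∀ j, ∃ c : ℝ, Φ (wd s (σ j)) = c • wd t j

theorem wd_ne (t : ℝ) (j : Fin 4) : wd t j ≠ 0 := by
  intro h
  fin_cases j
  · have := congrFun h 0; simp [wd] at this
  · have := congrFun h 1; simp [wd] at this
  · have := congrFun h 0; simp [wd] at this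
  · have := congrFun h 0; simp [wd] at this

theorem par_of_det {a x : WR} (ha : a ≠ 0) (h : a 0 * x 1 - a 1 * x 0 = 0) : ∃ c : ℝ, x = c • a := by
  have hpos : 0 < a 0 ^ 2 + a 1 ^ 2 := by
    by_contra hcon
    push Not at hcon
    apply ha
    funext k
    fin_cases k
    · show a 0 = 0
      nlinarith [sq_nonneg (a 0), sq_nonneg (a 1)]
    · show a 1 = 0
      nlinarith [sq_nonneg (a 0), sq_nonneg (a 1)]
  refine ⟨(a 0 * x 0 + a 1 * x 1) / (a 0 ^ 2 + a 1 ^ 2), ?_⟩
  funext k
  fin_cases k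
  · show x 0 = (a 0 * x 0 + a 1 * x 1) / (a 0 ^ 2 + a 1 ^ 2) * a 0
    rw [div_mul_eq_mul_div, eq_div_iff hpos.ne']
    linear_combination (-a 1) * h
  · show x 1 = (a 0 * x 0 + a 1 * x 1) / (a 0 ^ 2 + a 1 ^ 2) * a 1
    rw [div_mul_eq_mul_div, eq_div_iff hpos.ne']
    linear_combination (a 0) * h

theorem rel_of_hom {s t : ℝ} (D : ER →ₗ[ℝ] ER) (hD : Function.Injective D) (Φ : WR →ₗ[ℝ] WR)
    (hΦ : Function.Injective Φ) (h : ∀ v v', AA t (D v) (D v') = Φ (AA s v v')) :
    ∃ σ, Rel s t σ := by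
  have hsurj : Function.Surjective D := LinearMap.surjective_of_injective hD
  have key : ∀ j : Fin 4, ∃ i : Fin 4, ∃ c : ℝ, Φ (wd s i) = c • wd t j := by
    intro j
    obtain ⟨e, he⟩ := hsurj (Pi.single (ie j) 1)
    have hdet : ∀ v', (wd t j) 0 * (Φ (AA s e v')) 1 - (wd t j) 1 * (Φ (AA s e v')) 0 = 0 := by
      intro v'
      rw [← h, he, AA_single_e]
      simp only [Pi.smul_apply, smul_eq_mul]
      ring
    have hne : e ≠ 0 := by
      intro h0
      rw [h0, map_zero] at he
      have := congrFun he (ie j)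
      simp at this
    obtain ⟨k, hk⟩ : ∃ k, e k ≠ 0 := by
      by_contra hcon
      push Not at hcon
      exact hne (funext hcon)
    obtain ⟨i, hi⟩ := idx_cases k
    refine ⟨i, ?_⟩
    rcases hi with rfl | rfl
    · have h1 := hdet (Pi.single (io i) 1)
      rw [AA_single_o', map_smul] at h1
      simp only [Pi.smul_apply, smul_eq_mul] at h1
      apply par_of_det (wd_ne t j)
      have h2 : (e (ie i) / 5) * ((wd t j) 0 * (Φ (wd s i)) 1 - (wd t j) 1 * (Φ (wd s i)) 0) = 0 := by
        linear_combination h1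
      rcases mul_eq_zero.1 h2 with h3 | h3
      · exact absurd h3 (div_ne_zero hk (by norm_num))
      · exact h3
    · have h1 := hdet (Pi.single (ie i) 1)
      rw [AA_single_e', map_smul] at h1
      simp only [Pi.smul_apply, smul_eq_mul] at h1
      apply par_of_det (wd_ne t j)
      have h2 : (-e (io i) / 5) * ((wd t j) 0 * (Φ (wd s i)) 1 - (wd t j) 1 * (Φ (wd s i)) 0) = 0 := by
        linear_combination h1
      rcases mul_eq_zero.1 h2 with h3 | h3
      · exact absurd h3 (div_ne_zero (neg_ne_zero.2 hk) (by norm_num))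
      · exact h3
  choose σ hσ using key
  exact ⟨σ, Φ, hΦ, hσ⟩

theorem wd_indep {t : ℝ} (ht : 2 < t) {i j : Fin 4} (hij : i ≠ j) {a b : ℝ}
    (h : a • wd t i = b • wd t j) : a = 0 := by
  have h0 := congrFun h 0
  have h1 := congrFun h 1
  fin_cases i <;> fin_cases j <;> simp [wd] at h0 h1 hij ⊢ <;> first
    | assumption
    | linarith
    | (rcases h1 with h1 | h1 <;> linarith)
    | (subst h0; simpa using h1)
    | (subst h0; have : a * (t - 1) = 0 := by linarith
       rcases mul_eq_zero.1 this with h | h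
       · exact h
       · linarith)

theorem rel_unique {s s' t : ℝ} (ht : 2 < t) {σ : Fin 4 → Fin 4} (h : Rel s t σ)
    (h' : Rel s' t σ) : s = s' := by
  obtain ⟨Φ, hΦ, hc⟩ := h
  obtain ⟨Φ', hΦ', hc'⟩ := h'
  choose c hc using hc
  choose c' hc' using hc'
  have hc0 : ∀ j, c j ≠ 0 := by
    intro j h0
    have := hc j
    rw [h0, zero_smul] at this
    exact wd_ne s (σ j) (hΦ (this.trans (map_zero Φ).symm))
  have hc0' : ∀ j, c' j ≠ 0 := by
    intro j h0
    have := hc' j
    rw [h0, zero_smul] at this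
    exact wd_ne s' (σ j) (hΦ' (this.trans (map_zero Φ').symm))
  have hinj : Function.Injective σ := by
    intro i j hij
    by_contra hne
    have h1 := hc i
    rw [hij, hc j] at h1
    exact hc0 j (wd_indep ht (fun h => hne h.symm) h1)
  have hsurj : Function.Surjective σ := Finite.surjective_of_injective hinj
  have key : ∀ i, ∃ d : ℝ, Φ (wd s i) = d • Φ' (wd s' i) := by
    intro i
    obtain ⟨j, rfl⟩ := hsurj i
    refine ⟨c j / c' j, ?_⟩
    rw [hc, hc', smul_smul, div_mul_cancel₀ _ (hc0' j)]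
  choose d hd using key
  obtain ⟨x, hx⟩ : ∃ x, x = Φ' ![1, 0] := ⟨_, rfl⟩
  obtain ⟨y, hy⟩ : ∃ y, y = Φ' ![0, 1] := ⟨_, rfl⟩
  have e0 : Φ ![1, 0] = d 0 • x := by rw [hx]; exact hd 0
  have e1 : Φ ![0, 1] = d 1 • y := by rw [hy]; exact hd 1
  have e2 : Φ (wd s 2) = Φ ![1, 0] + Φ ![0, 1] := by
    rw [← map_add]; congr 1; funext k; fin_cases k <;> simp [wd]
  have e2' : Φ' (wd s' 2) = x + y := by
    rw [hx, hy, ← map_add]; congr 1; funext k; fin_cases k <;> simp [wd]
  have e3 : Φ (wd s 3) = Φ ![1, 0] + s • Φ ![0, 1] := by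
    rw [← map_smul, ← map_add]; congr 1; funext k; fin_cases k <;> simp [wd]
  have e3' : Φ' (wd s' 3) = x + s' • y := by
    rw [hx, hy, ← map_smul, ← map_add]; congr 1; funext k; fin_cases k <;> simp [wd]
  have hxy : ∀ a b : ℝ, a • x + b • y = 0 → a = 0 ∧ b = 0 := by
    intro a b hab
    rw [hx, hy, ← map_smul, ← map_smul, ← map_add] at hab
    have := hΦ' (hab.trans (map_zero Φ').symm)
    have h0 := congrFun this 0
    have h1 := congrFun this 1
    simp at h0 h1
    exact ⟨h0, h1⟩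
  have f2 := hd 2
  rw [e2, e2', e0, e1] at f2
  have f3 := hd 3
  rw [e3, e3', e0, e1] at f3
  have g2 := hxy (d 0 - d 2) (d 1 - d 2) (by
    have : (d 0 - d 2) • x + (d 1 - d 2) • y = (d 0 • x + d 1 • y) - d 2 • (x + y) := by module
    rw [this, f2, sub_self])
  have g3 := hxy (d 0 - d 3) (s * d 1 - d 3 * s') (by
    have : (d 0 - d 3) • x + (s * d 1 - d 3 * s') • y = (d 0 • x + s • d 1 • y) - d 3 • (x + s' • y) := by
      module
    rw [this, f3, sub_self])
  have hd0 : d 0 ≠ 0 := by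
    intro h0
    rw [h0, zero_smul] at e0
    have := hΦ (e0.trans (map_zero Φ).symm)
    have h1 := congrFun this 0
    simp at h1
  have h1 : d 1 = d 0 := by linarith [g2.1, g2.2]
  have h3 : d 3 = d 0 := by linarith [g3.1]
  rw [h1, h3] at g3
  have h4 : (s - s') * d 0 = 0 := by linarith [g3.2]
  rcases mul_eq_zero.1 h4 with h5 | h5
  · linarith
  · exact absurd h5 hd0

end Pool.Agent.H763
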