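import Pool.Agent.H763.Words
import Pool.Agent.H763.Blow

set_option autoImplicit false

namespace Pool.Agent.H763

/-- the graph of parameter `s` is quasi-isometric to the finitely presented group with code `(k, R)` -/
def QC (s : ℝ) (k : ℕ) (R : Finset (FreeGroup (Fin k))) : Prop :=
  ∃ (F : VV 8 2 → FreeGroup (Fin k) ⧸ Subgroup.normalClosure (R : Set (FreeGroup (Fin k)))) (K : ℕ),
    QIK (GG (AA s)) (QuotientGroup.mk' (Subgroup.normalClosure (R : Set (FreeGroup (Fin k))))) F K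

theorem exists_code {s : ℝ} (h0 : 0 ≤ s) (h3 : s ≤ 3) {P : Type} [Group P] {k : ℕ}
    (π : FreeGroup (Fin k) →* P) (hπ : Function.Surjective π) (F : VV 8 2 → P) (K : ℕ)
    (h : QIK (GG (AA s)) π F K) : ∃ R, QC s k R := by
  obtain ⟨R, hR⟩ := pres h0 h3 π hπ F K h
  obtain ⟨word, hw1, hw2⟩ := exists_word π hπ
  refine ⟨R, fun x => QuotientGroup.mk' _ (word (F x)), K, ?_⟩
  have key : ∀ (a b : P) (w : FreeGroup (Fin k)),
      QuotientGroup.mk' (Subgroup.normalClosure (R : Set (FreeGroup (Fin k)))) (word a) *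
        QuotientGroup.mk' (Subgroup.normalClosure (R : Set (FreeGroup (Fin k)))) w =
        QuotientGroup.mk' (Subgroup.normalClosure (R : Set (FreeGroup (Fin k)))) (word b) ↔
      a * π w = b := by
    intro a b w
    rw [← map_mul, QuotientGroup.mk'_eq_mk']
    constructor
    · rintro ⟨z, hz, e⟩
      rw [← hR, MonoidHom.mem_ker] at hz
      have := congrArg π e
      rw [map_mul, map_mul, hz, mul_one, hw1, hw1] at this
      exact this
    · intro e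
      refine ⟨(word a * w)⁻¹ * word b, ?_, by group⟩
      rw [← hR, MonoidHom.mem_ker, map_mul, map_inv, map_mul, hw1, hw1, e, inv_mul_cancel]
  constructor
  · intro x y w hw
    exact h.lo x y w ((key _ _ _).1 hw)
  · intro x y
    obtain ⟨w, h1, h2⟩ := h.up x y
    exact ⟨w, h1, (key _ _ _).2 h2⟩
  · intro q
    obtain ⟨u, rfl⟩ := QuotientGroup.mk'_surjective _ q
    obtain ⟨x, w, h1, h2⟩ := h.onto (π u)
    refine ⟨x, w, h1, ?_⟩
    rw [(key (F x) (π u) w).2 h2, QuotientGroup.mk'_eq_mk']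
    refine ⟨(word (π u))⁻¹ * u, ?_, by group⟩
    rw [← hR, MonoidHom.mem_ker, map_mul, map_inv, hw1, inv_mul_cancel]

theorem compose {V₁ V₂ P : Type} [Group P] {k : ℕ} {G₁ : SimpleGraph V₁} {G₂ : SimpleGraph V₂}
    {π : FreeGroup (Fin k) →* P} {F₁ : V₁ → P} {F₂ : V₂ → P} {K₁ K₂ : ℕ}
    (h1 : QIK G₁ π F₁ K₁) (h2 : QIK G₂ π F₂ K₂) :
    ∃ (f : V₁ → V₂) (M : ℕ), ∀ x y, G₂.dist (f x) (f y) ≤ M * G₁.dist x y + M ∧
      G₁.dist x y ≤ M * G₂.dist (f x) (f y) + M := by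
  choose f w hw1 hw2 using fun x => h2.onto (F₁ x)
  refine ⟨f, K₂ * K₁ + K₂ * (2 * K₂ + K₁) + K₂ + K₁ * K₂ + K₁ * (3 * K₂) + K₁, fun x y => ⟨?_, ?_⟩⟩
  · obtain ⟨u, hu1, hu2⟩ := h1.up x y
    have e1 := h2.lo (f x) (f y) (w x * u * (w y)⁻¹) (by
      rw [map_mul, map_mul, map_inv, ← mul_assoc, ← mul_assoc, hw2, hu2, mul_inv_eq_iff_eq_mul, hw2])
    have e2 : (w x * u * (w y)⁻¹).norm ≤ K₂ + (K₁ * G₁.dist x y + K₁) + K₂ := by
      refine (FreeGroup.norm_mul_le _ _).trans ?_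
      rw [FreeGroup.norm_inv_eq]
      have := FreeGroup.norm_mul_le (w x) u
      have := hw1 x
      have := hw1 y
      omega
    calc G₂.dist (f x) (f y) ≤ K₂ * (w x * u * (w y)⁻¹).norm + K₂ := e1
      _ ≤ K₂ * (K₂ + (K₁ * G₁.dist x y + K₁) + K₂) + K₂ :=
          Nat.add_le_add_right (Nat.mul_le_mul_left _ e2) _
      _ ≤ _ := by
          ring_nf
          nlinarith [Nat.zero_le (K₂ * K₁ * G₁.dist x y), Nat.zero_le (K₂ ^ 2 * G₁.dist x y),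
            Nat.zero_le (K₂ * G₁.dist x y), Nat.zero_le (K₁ * G₁.dist x y), Nat.zero_le (K₁ * K₂),
            Nat.zero_le K₁]
  · obtain ⟨u, hu1, hu2⟩ := h2.up (f x) (f y)
    have e1 := h1.lo x y ((w x)⁻¹ * u * w y) (by
      have a1 := hw2 x
      have a2 := hw2 y
      rw [← hu2] at a2
      rw [map_mul, map_mul, map_inv, ← a1, ← a2]
      group)
    have e2 : ((w x)⁻¹ * u * w y).norm ≤ K₂ + (K₂ * G₂.dist (f x) (f y) + K₂) + K₂ := by
      refine (FreeGroup.norm_mul_le _ _).trans ?_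
      have := FreeGroup.norm_mul_le (w x)⁻¹ u
      rw [FreeGroup.norm_inv_eq] at this
      have := hw1 x
      have := hw1 y
      omega
    calc G₁.dist x y ≤ K₁ * ((w x)⁻¹ * u * w y).norm + K₁ := e1
      _ ≤ K₁ * (K₂ + (K₂ * G₂.dist (f x) (f y) + K₂) + K₂) + K₁ :=
          Nat.add_le_add_right (Nat.mul_le_mul_left _ e2) _
      _ ≤ _ := by
          ring_nf
          nlinarith [Nat.zero_le (K₂ * K₁ * G₂.dist (f x) (f y)), Nat.zero_le (K₂ ^ 2 * G₂.dist (f x) (f y)),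
            Nat.zero_le (K₂ * G₂.dist (f x) (f y)), Nat.zero_le (K₁ * G₂.dist (f x) (f y)),
            Nat.zero_le (K₁ * K₂), Nat.zero_le (K₂ ^ 2), Nat.zero_le K₂]

theorem rel_of_qi {s t : ℝ} (hs0 : 0 ≤ s) (hs3 : s ≤ 3) (ht0 : 0 ≤ t) (ht3 : t ≤ 3)
    (f : VV 8 2 → VV 8 2) (M : ℕ)
    (hf : ∀ x y, (GG (AA t)).dist (f x) (f y) ≤ M * (GG (AA s)).dist x y + M ∧
      (GG (AA s)).dist x y ≤ M * (GG (AA t)).dist (f x) (f y) + M) :
    ∃ σ, Rel s t σ := by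
  have hA := good_AA hs0 hs3
  have hA' := good_AA ht0 ht3
  have hM0 : (0 : ℝ) ≤ M := Nat.cast_nonneg _
  have hup : ∀ x y : NG (AA s), dd (emb (AA t) (f (rnd x))) (emb (AA t) (f (rnd y))) ≤
      (200 * ((M : ℝ) + 1)) * dd x y + 200 * ((M : ℝ) + 1) := by
    intro x y
    have r1 := dd_rnd hA x
    have r2 := dd_rnd hA y
    rw [dd_comm hA] at r1
    have t1 := dd_tri hA (emb (AA s) (rnd x)) x (emb (AA s) (rnd y))
    have t2 := dd_tri hA x y (emb (AA s) (rnd y))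
    have u1 := dist_le hs0 hs3 (rnd x) (rnd y)
    have u2 := dist_ge ht0 ht3 (f (rnd x)) (f (rnd y))
    have u3 : ((GG (AA t)).dist (f (rnd x)) (f (rnd y)) : ℝ) ≤
        M * (GG (AA s)).dist (rnd x) (rnd y) + M := by exact_mod_cast (hf (rnd x) (rnd y)).1
    have d0 := dd_nonneg x y
    have u4 : (M : ℝ) * (GG (AA s)).dist (rnd x) (rnd y) ≤ M * (18 * (dd x y + 3)) :=
      mul_le_mul_of_nonneg_left (by linarith) hM0
    nlinarith
  have hlo : ∀ x y : NG (AA s), (1 / (54 * ((M : ℝ) + 1))) * dd x y - 200 * ((M : ℝ) + 1) ≤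
      dd (emb (AA t) (f (rnd x))) (emb (AA t) (f (rnd y))) := by
    intro x y
    have r1 := dd_rnd hA x
    have r2 := dd_rnd hA y
    have c2 := dd_comm hA y (emb (AA s) (rnd y))
    have t1 := dd_tri hA x (emb (AA s) (rnd x)) y
    have t2 := dd_tri hA (emb (AA s) (rnd x)) (emb (AA s) (rnd y)) y
    have u1 := dist_ge hs0 hs3 (rnd x) (rnd y)
    have u2 := dist_le ht0 ht3 (f (rnd x)) (f (rnd y))
    have u3 : ((GG (AA s)).dist (rnd x) (rnd y) : ℝ) ≤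
        M * (GG (AA t)).dist (f (rnd x)) (f (rnd y)) + M := by exact_mod_cast (hf (rnd x) (rnd y)).2
    have d0 := dd_nonneg (emb (AA t) (f (rnd x))) (emb (AA t) (f (rnd y)))
    have u4 : (M : ℝ) * (GG (AA t)).dist (f (rnd x)) (f (rnd y)) ≤
        M * (18 * (dd (emb (AA t) (f (rnd x))) (emb (AA t) (f (rnd y))) + 1)) :=
      mul_le_mul_of_nonneg_left u2 hM0
    have u5 : dd x y ≤ 54 * M * dd (emb (AA t) (f (rnd x))) (emb (AA t) (f (rnd y))) + 57 * M + 2 := by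
      nlinarith
    rw [sub_le_iff_le_add, one_div, inv_mul_le_iff₀ (by positivity)]
    nlinarith
  obtain ⟨G, g1, g2, g3, g4⟩ := blowdown hA hA' (fun x => emb (AA t) (f (rnd x)))
    (by positivity) hup hlo
  obtain ⟨D, hD, Φ, hΦ, h⟩ := hom_of_sd hA hA' G (by positivity) (by positivity) g1 g2 g3 g4 (span_AA s)
  exact rel_of_hom D hD Φ hΦ h

theorem rel_of_code {s t : ℝ} (hs0 : 0 ≤ s) (hs3 : s ≤ 3) (ht0 : 0 ≤ t) (ht3 : t ≤ 3) {k : ℕ}
    {R : Finset (FreeGroup (Fin k))} (h1 : QC s k R) (h2 : QC t k R) : ∃ σ, Rel s t σ := by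
  obtain ⟨F₁, K₁, h1⟩ := h1
  obtain ⟨F₂, K₂, h2⟩ := h2
  obtain ⟨f, M, hf⟩ := compose h1 h2
  exact rel_of_qi hs0 hs3 ht0 ht3 f M hf

theorem exists_no_code : ∃ s : ℝ, s ∈ Set.Ioo (2 : ℝ) 3 ∧ ∀ k R, ¬ QC s k R := by
  by_contra hcon
  push Not at hcon
  choose! kk RR hQ using hcon
  -- a reference parameter for each code
  have href : ∀ c : (Σ k : ℕ, Finset (FreeGroup (Fin k))), ∃ t : ℝ,
      (∃ s ∈ Set.Ioo (2 : ℝ) 3, (⟨kk s, RR s⟩ : Σ k : ℕ, Finset (FreeGroup (Fin k))) = c) →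
      t ∈ Set.Ioo (2 : ℝ) 3 ∧ QC t c.1 c.2 := by
    intro c
    by_cases h : ∃ s ∈ Set.Ioo (2 : ℝ) 3, (⟨kk s, RR s⟩ : Σ k : ℕ, Finset (FreeGroup (Fin k))) = c
    · obtain ⟨s, hs, rfl⟩ := h
      exact ⟨s, fun _ => ⟨hs, hQ s hs⟩⟩
    · exact ⟨0, fun h' => absurd h' h⟩
  choose rf hrf using href
  have hσ : ∀ s : Set.Ioo (2 : ℝ) 3, ∃ σ, Rel s (rf ⟨kk s, RR s⟩) σ := by
    rintro ⟨s, hs⟩
    obtain ⟨h1, h2⟩ := hrf ⟨kk s, RR s⟩ ⟨s, hs, rfl⟩
    exact rel_of_code (by linarith [hs.1]) (by linarith [hs.2]) (by linarith [h1.1])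
      (by linarith [h1.2]) (hQ s hs) h2
  choose σ hσ using hσ
  have hinj : Function.Injective (fun s : Set.Ioo (2 : ℝ) 3 =>
      ((⟨kk s, RR s⟩ : Σ k : ℕ, Finset (FreeGroup (Fin k))), σ s)) := by
    intro a b hab
    have e1 : (⟨kk a, RR a⟩ : Σ k : ℕ, Finset (FreeGroup (Fin k))) = ⟨kk b, RR b⟩ :=
      congrArg Prod.fst hab
    have e2 : σ a = σ b := congrArg Prod.snd hab
    have h1 := hσ a
    have h2 := hσ b
    rw [← e1, ← e2] at h2
    have h3 := (hrf ⟨kk a, RR a⟩ ⟨a, a.2, rfl⟩).1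
    exact Subtype.ext (rel_unique h3.1 h1 h2)
  have hcF : ∀ k : ℕ, Countable (FreeGroup (Fin k)) := by
    intro k
    exact (FreeGroup.toWord_injective (α := Fin k)).countable
  have hc : Countable ((Σ k : ℕ, Finset (FreeGroup (Fin k))) × (Fin 4 → Fin 4)) := by
    have := hcF
    infer_instance
  have hcI : Countable (Set.Ioo (2 : ℝ) 3) := hinj.countable
  have h1 : (Set.Ioo (2 : ℝ) 3).Countable := hcI
  have h2 := Cardinal.mk_Ioo_real (show (2 : ℝ) < 3 by norm_num)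
  have h3 := Cardinal.le_aleph0_iff_set_countable.2 h1
  rw [h2] at h3
  exact absurd h3 (not_le.2 Cardinal.aleph0_lt_continuum)

theorem main :
    ∃ (V : Type) (G : SimpleGraph V),
      G.Connected ∧ (∀ v, (G.neighborSet v).Finite) ∧
      (∃ (v₀ : V) (c d : ℕ), ∀ r : ℕ,
          Set.ncard {w | G.dist v₀ w ≤ r} ≤ c * (r + 1) ^ d) ∧
      (∃ n : ℕ, ∀ R : ℕ, ∃ (ι : Type) (U : ι → Set V) (D : ℕ),
          (∀ i, ∀ x ∈ U i, ∀ y ∈ U i, G.dist x y ≤ D) ∧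
          (∀ x, ∃ i, x ∈ U i) ∧
          ∀ x, {i | ∃ y ∈ U i, G.dist x y ≤ R}.Finite ∧
            Set.ncard {i | ∃ y ∈ U i, G.dist x y ≤ R} ≤ n + 1) ∧
      (∃ K C : ℝ, 0 < K ∧ ∀ x y : V, ∃ f : V → V,
          (∀ a b : V, (G.dist a b : ℝ) / K - C ≤ (G.dist (f a) (f b) : ℝ) ∧
              (G.dist (f a) (f b) : ℝ) ≤ K * (G.dist a b : ℝ) + C) ∧
          (∀ z : V, ∃ a : V, (G.dist (f a) z : ℝ) ≤ C) ∧
          (G.dist (f x) y : ℝ) ≤ C) ∧
      ∀ (H : Type) [Group H] (S : Set H), S.Finite → Subgroup.closure S = ⊤ →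
        ¬ ∃ (φ : V → H) (K C : ℝ), 0 < K ∧
          (∀ a b : V,
              (G.dist a b : ℝ) / K - C ≤
                ((SimpleGraph.fromRel (fun g h : H => ∃ s ∈ S, h = g * s)).dist (φ a) (φ b) : ℝ) ∧
              ((SimpleGraph.fromRel (fun g h : H => ∃ s ∈ S, h = g * s)).dist (φ a) (φ b) : ℝ) ≤
                K * (G.dist a b : ℝ) + C) ∧
          (∀ h : H, ∃ a : V,
              ((SimpleGraph.fromRel (fun g h : H => ∃ s ∈ S, h = g * s)).dist (φ a) h : ℝ) ≤ C) := by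
  obtain ⟨s, hs, hno⟩ := exists_no_code
  have h0 : 0 ≤ s := by linarith [hs.1]
  have h3 : s ≤ 3 := by linarith [hs.2]
  refine ⟨VV 8 2, GG (AA s), conn h0 h3, locfin h0 h3, growth h0 h3, asd h0 h3, ctrans h0 h3, ?_⟩
  rintro H _ S hS hcl ⟨φ, K, C, hK, h1, h2⟩
  obtain ⟨k, π, hπ, N, hN⟩ := qik_of_real (GG (AA s)) S hS hcl φ K C hK h1 h2
  obtain ⟨R, hR⟩ := exists_code h0 h3 π hπ φ N hN
  exact hno k R hR

end Pool.Agent.H763
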