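import Pool.Agent.H763.Fam

set_option autoImplicit false

namespace Pool.Agent.H763

/-- lattice points -/
abbrev VV (m n : ℕ) := (Fin m → ℤ) × (Fin n → ℤ)

section
variable {m n : ℕ} {A : (Fin m → ℝ) →ₗ[ℝ] (Fin m → ℝ) →ₗ[ℝ] (Fin n → ℝ)}

/-- inclusion of lattice points -/
def emb (A : (Fin m → ℝ) →ₗ[ℝ] (Fin m → ℝ) →ₗ[ℝ] (Fin n → ℝ)) (x : VV m n) : NG A :=
  ⟨fun i => (x.1 i : ℝ), fun i => (x.2 i : ℝ)⟩

/-- rounding -/
noncomputable def rnd (x : NG A) : VV m n :=
  (fun i => round (x.v i), fun j => round ((x.w + A x.v (fun i => ((round (x.v i) : ℤ) : ℝ))) j))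

theorem dd_emb (hA : Good A) (x : NG A) (i : VV m n) :
    (x⁻¹ * emb A i).v = (fun k => (i.1 k : ℝ) - x.v k) ∧
    (x⁻¹ * emb A i).w = (fun k => (i.2 k : ℝ) - (x.w + A x.v (fun k => (i.1 k : ℝ))) k) := by
  constructor
  · funext k
    simp [emb]
    ring
  · funext k
    rw [mul_w, inv_w, hA.alt, inv_v, map_neg, LinearMap.neg_apply]
    simp only [emb, Pi.add_apply, Pi.neg_apply, add_zero]
    ring

theorem dd_rnd (hA : Good A) (x : NG A) : dd x (emb A (rnd x)) ≤ 1 := by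
  obtain ⟨h1, h2⟩ := dd_emb hA x (rnd x)
  unfold dd
  apply nm_le zero_le_one
  · rw [h1, pi_norm_le_iff_of_nonneg zero_le_one]
    intro k
    rw [Real.norm_eq_abs, abs_sub_comm]
    have := abs_sub_round (x.v k)
    exact this.trans (by norm_num)
  · rw [h2, pi_norm_le_iff_of_nonneg (by norm_num)]
    intro k
    rw [Real.norm_eq_abs, abs_sub_comm]
    have := abs_sub_round ((x.w + A x.v (fun i => ((round (x.v i) : ℤ) : ℝ))) k)
    exact this.trans (by norm_num)

theorem rnd_emb (hA : Good A) (i : VV m n) : rnd (emb A i) = i := by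
  have h : (fun k => ((round ((emb A i).v k) : ℤ) : ℝ)) = (emb A i).v := by
    funext k
    simp [emb]
  unfold rnd
  rw [h, hA.alt, add_zero]
  ext k
  · simp [emb]
  · simp [emb]

/-- the graph -/
def GG (A : (Fin m → ℝ) →ₗ[ℝ] (Fin m → ℝ) →ₗ[ℝ] (Fin n → ℝ)) : SimpleGraph (VV m n) :=
  SimpleGraph.fromRel (fun x y => dd (emb A x) (emb A y) ≤ 3)

theorem adj_iff (hA : Good A) (x y : VV m n) :
    (GG A).Adj x y ↔ x ≠ y ∧ dd (emb A x) (emb A y) ≤ 3 := by
  unfold GG
  rw [SimpleGraph.fromRel_adj, dd_comm hA (emb A y) (emb A x), or_self]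

theorem walk_le (hA : Good A) {x y : VV m n} (w : (GG A).Walk x y) :
    dd (emb A x) (emb A y) ≤ 3 * w.length := by
  induction w with
  | nil => simp [dd_self]
  | cons h p ih =>
    rw [SimpleGraph.Walk.length_cons]
    have h1 := ((adj_iff hA _ _).1 h).2
    have h2 := dd_tri hA (emb A _) (emb A _) (emb A _) |>.trans (add_le_add h1 ih)
    push_cast
    linarith

theorem dd_le_dist (hA : Good A) (hc : (GG A).Connected) (x y : VV m n) :
    dd (emb A x) (emb A y) ≤ 3 * (GG A).dist x y := by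
  obtain ⟨w, hw⟩ := hc.exists_walk_length_eq_dist x y
  rw [← hw]
  exact walk_le hA w

/-- bounded step -/
def Stp (A : (Fin m → ℝ) →ₗ[ℝ] (Fin m → ℝ) →ₗ[ℝ] (Fin n → ℝ)) (k : ℕ) (g : NG A) : Prop :=
  ∀ x : NG A, ∃ w : (GG A).Walk (rnd x) (rnd (x * g)), w.length ≤ k

theorem Stp.mul {k l : ℕ} {g h : NG A} (hg : Stp A k g) (hh : Stp A l h) : Stp A (k + l) (g * h) := by
  intro x
  obtain ⟨w1, h1⟩ := hg x
  obtain ⟨w2, h2⟩ := hh (x * g)
  rw [mul_assoc] at w2
  obtain ⟨w2, h2⟩ := hh (x * g)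
  refine ⟨(w1.append w2).copy rfl (by rw [mul_assoc]), ?_⟩
  rw [SimpleGraph.Walk.length_copy, SimpleGraph.Walk.length_append]
  exact add_le_add h1 h2

theorem Stp.mono {k l : ℕ} {g : NG A} (hg : Stp A k g) (h : k ≤ l) : Stp A l g := fun x => by
  obtain ⟨w, hw⟩ := hg x
  exact ⟨w, hw.trans h⟩

theorem stp_one (hA : Good A) {g : NG A} (hg : nm g ≤ 1) : Stp A 1 g := by
  intro x
  by_cases h : rnd x = rnd (x * g)
  · rw [← h]
    exact ⟨SimpleGraph.Walk.nil, by simp⟩
  · have h1 : dd (emb A (rnd x)) (emb A (rnd (x * g))) ≤ 3 := by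
      have e1 := dd_rnd hA x
      rw [dd_comm hA] at e1
      have e2 := dd_rnd hA (x * g)
      have e3 : dd x (x * g) ≤ 1 := by
        unfold dd
        rw [inv_mul_cancel_left]
        exact hg
      have e4 := dd_tri hA (emb A (rnd x)) x (x * g)
      have e5 := dd_tri hA (emb A (rnd x)) (x * g) (emb A (rnd (x * g)))
      linarith
    have h2 : (GG A).Adj (rnd x) (rnd (x * g)) := (adj_iff hA _ _).2 ⟨h, h1⟩
    exact ⟨h2.toWalk, by simp⟩

theorem stp_pow {g : NG A} (hg : Stp A 1 g) (k : ℕ) : Stp A k (g ^ k) := by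
  induction k with
  | zero =>
    intro x
    rw [pow_zero, mul_one]
    exact ⟨SimpleGraph.Walk.nil, by simp⟩
  | succ k ih =>
    rw [pow_succ]
    exact ih.mul hg

theorem ex_pow (hA : Good A) (v : Fin m → ℝ) (k : ℕ) : (ex v : NG A) ^ k = ex ((k : ℝ) • v) := by
  induction k with
  | zero => simp [ex_zero]
  | succ k ih =>
    rw [pow_succ, ih]
    have := ex_smul_mul hA (k : ℝ) 1 v
    rw [one_smul] at this
    rw [this]
    push_cast
    rfl

theorem nm_ex (v : Fin m → ℝ) : nm (ex v : NG A) = ‖v‖ := by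
  simp [nm]

theorem stp_ex (hA : Good A) (v : Fin m → ℝ) (k : ℕ) (hk : ‖v‖ ≤ k) : Stp A k (ex v) := by
  rcases Nat.eq_zero_or_pos k with h | h
  · subst h
    have : v = 0 := by
      rw [Nat.cast_zero] at hk
      exact norm_le_zero_iff.1 hk
    rw [this, ex_zero]
    simpa using stp_pow (A := A) (g := 1) (stp_one hA (by simp)) 0
  · have hk0 : (0 : ℝ) < k := by exact_mod_cast h
    have h1 : (ex v : NG A) = (ex ((k : ℝ)⁻¹ • v)) ^ k := by
      rw [ex_pow hA, smul_smul, mul_inv_cancel₀ hk0.ne', one_smul]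
    rw [h1]
    apply stp_pow
    apply stp_one hA
    rw [nm_ex, norm_smul, Real.norm_eq_abs, abs_of_pos (inv_pos.2 hk0), inv_mul_le_iff₀ hk0]
    linarith

theorem stp_comm (hA : Good A) (v v' : Fin m → ℝ) (k : ℕ) (hk : ‖v‖ ≤ k) (hk' : ‖v'‖ ≤ k) :
    Stp A (k + k + k + k) (ce ((2 : ℝ) • A v v')) := by
  rw [← comm_ex hA]
  exact (((stp_ex hA v k hk).mul (stp_ex hA v' k hk')).mul (stp_ex hA (-v) k (by rwa [norm_neg]))).mul
    (stp_ex hA (-v') k (by rwa [norm_neg]))

/-- counting lattice points in balls -/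
theorem count_ball (hA : Good A) (x : NG A) (T : ℕ) :
    {i : VV m n | dd x (emb A i) ≤ T}.Finite ∧
    {i : VV m n | dd x (emb A i) ≤ T}.ncard ≤ (2 * T + 2) ^ m * (2 * T ^ 2 + 2) ^ n := by
  classical
  let ψ : VV m n → VV m n := fun i =>
    (fun k => i.1 k - ⌊x.v k⌋, fun k => i.2 k - ⌊(x.w + A x.v (fun k => (i.1 k : ℝ))) k⌋)
  let B : Finset (VV m n) :=
    (Finset.Icc (fun _ => -(T : ℤ)) (fun _ => (T : ℤ) + 1)) ×ˢ
      (Finset.Icc (fun _ => -((T : ℤ) ^ 2)) (fun _ => (T : ℤ) ^ 2 + 1))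
  have hinj : Function.Injective ψ := by
    intro i j hij
    have h1 : i.1 = j.1 := by
      funext k
      have := congrFun (congrArg Prod.fst hij) k
      simp only [ψ] at this
      linarith
    have h2 : i.2 = j.2 := by
      funext k
      have := congrFun (congrArg Prod.snd hij) k
      simp only [ψ, h1] at this
      linarith
    exact Prod.ext h1 h2
  have key : ∀ (a : ℝ) (b : ℤ) (N : ℕ), |(b : ℝ) - a| ≤ N → -(N : ℤ) ≤ b - ⌊a⌋ ∧ b - ⌊a⌋ ≤ N + 1 := by
    intro a b N h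
    have h1 := abs_le.1 h
    have h2 := Int.floor_le a
    have h3 := Int.lt_floor_add_one a
    constructor
    · have : (-(N : ℤ) : ℝ) ≤ ((b - ⌊a⌋ : ℤ) : ℝ) := by push_cast; linarith [h1.1]
      exact_mod_cast this
    · have : ((b - ⌊a⌋ : ℤ) : ℝ) ≤ ((N + 1 : ℤ) : ℝ) := by push_cast; linarith [h1.2]
      exact_mod_cast this
  have hmaps : ∀ i ∈ {i : VV m n | dd x (emb A i) ≤ T}, ψ i ∈ (B : Set (VV m n)) := by
    intro i hi
    obtain ⟨h1, h2⟩ := dd_emb hA x i
    have hi' : nm (x⁻¹ * emb A i) ≤ T := hi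
    have hv : ‖(x⁻¹ * emb A i).v‖ ≤ T := (norm_v_le _).trans hi'
    have hw : ‖(x⁻¹ * emb A i).w‖ ≤ ((T ^ 2 : ℕ) : ℝ) := by
      refine (norm_w_le _).trans ?_
      push_cast
      exact pow_le_pow_left₀ (nm_nonneg _) hi' 2
    rw [h1, pi_norm_le_iff_of_nonneg (Nat.cast_nonneg _)] at hv
    rw [h2, pi_norm_le_iff_of_nonneg (Nat.cast_nonneg _)] at hw
    simp only [B, Finset.coe_product, Set.mem_prod, Finset.mem_coe, Finset.mem_Icc, Pi.le_def]
    refine ⟨⟨fun k => ?_, fun k => ?_⟩, ⟨fun k => ?_, fun k => ?_⟩⟩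
    · have := hv k
      rw [Real.norm_eq_abs] at this
      exact (key _ _ _ this).1
    · have := hv k
      rw [Real.norm_eq_abs] at this
      exact (key _ _ _ this).2
    · have := hw k
      rw [Real.norm_eq_abs] at this
      have h3 := (key _ _ _ this).1
      push_cast at h3
      exact h3
    · have := hw k
      rw [Real.norm_eq_abs] at this
      have h3 := (key _ _ _ this).2
      push_cast at h3
      exact h3
  have hcard : (B : Set (VV m n)).ncard = (2 * T + 2) ^ m * (2 * T ^ 2 + 2) ^ n := by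
    rw [Set.ncard_coe_finset, Finset.card_product, Pi.card_Icc, Pi.card_Icc]
    simp only [Int.card_Icc, Finset.prod_const, Finset.card_univ, Fintype.card_fin]
    congr 2
    · omega
    · have : (T : ℤ) ^ 2 + 1 + 1 - -(T : ℤ) ^ 2 = ((2 * T ^ 2 + 2 : ℕ) : ℤ) := by push_cast; ring
      rw [this, Int.toNat_natCast]
  constructor
  · exact Set.Finite.of_injOn hmaps hinj.injOn B.finite_toSet
  · rw [← hcard]
    exact Set.ncard_le_ncard_of_injOn ψ hmaps hinj.injOn B.finite_toSet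

end

end Pool.Agent.H763
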