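import Pool.Agent.H763.Topo

set_option autoImplicit false

open Filter Topology

namespace Pool.Agent.H763

theorem eq_of_sq_bound {X : Type} [NormedAddCommGroup X] (f : ℝ → X) (K : ℝ)
    (hf : ∀ a b, ‖f b - f a‖ ≤ K * (b - a) ^ 2) : f 1 = f 0 := by
  have h : ∀ n : ℕ, ∀ a b, ‖f b - f a‖ ≤ K * (b - a) ^ 2 / 2 ^ n := by
    intro n
    induction n with
    | zero => intro a b; simpa using hf a b
    | succ n ih =>
      intro a b
      have h1 := ih a ((a + b) / 2)
      have h2 := ih ((a + b) / 2) b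
      calc ‖f b - f a‖ = ‖(f b - f ((a + b) / 2)) + (f ((a + b) / 2) - f a)‖ := by
            congr 1; abel
        _ ≤ ‖f b - f ((a + b) / 2)‖ + ‖f ((a + b) / 2) - f a‖ := norm_add_le _ _
        _ ≤ K * (b - (a + b) / 2) ^ 2 / 2 ^ n + K * ((a + b) / 2 - a) ^ 2 / 2 ^ n :=
            add_le_add h2 h1
        _ = K * (b - a) ^ 2 / 2 ^ (n + 1) := by
            rw [pow_succ]
            field_simp
            ring
  have h1 : ‖f 1 - f 0‖ ≤ 0 := by
    have h3 : Tendsto (fun n : ℕ => K * ((1 : ℝ) - 0) ^ 2 / 2 ^ n) atTop (𝓝 0) := ?_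
    · exact ge_of_tendsto' h3 (fun n => h n 0 1)
    have h2 : Tendsto (fun n : ℕ => K * (1 - 0) ^ 2 * ((1 : ℝ) / 2) ^ n) atTop
        (𝓝 (K * (1 - 0) ^ 2 * 0)) :=
      (tendsto_pow_atTop_nhds_zero_of_lt_one (by norm_num) (by norm_num)).const_mul _
    rw [mul_zero] at h2
    refine h2.congr fun n => ?_
    rw [div_pow, one_pow]
    ring
  exact sub_eq_zero.1 (norm_le_zero_iff.1 h1)

section
variable {E W : Type} [NormedAddCommGroup E] [NormedSpace ℝ E] [NormedAddCommGroup W]
  [NormedSpace ℝ W] {A : E →ₗ[ℝ] E →ₗ[ℝ] W}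

theorem Good.anti (hA : Good A) (v v' : E) : A v' v = - A v v' := by
  have h := hA.alt (v + v')
  simp only [map_add, LinearMap.add_apply, hA.alt, zero_add, add_zero] at h
  exact eq_neg_of_add_eq_zero_left (by rw [add_comm]; simpa [add_comm] using h)

theorem ex_zero : (ex 0 : NG A) = 1 := by ext <;> simp
theorem ce_zero : (ce 0 : NG A) = 1 := by ext <;> simp
theorem ce_add (w w' : W) : (ce (w + w') : NG A) = ce w * ce w' := by ext <;> simp
theorem ex_smul_mul (hA : Good A) (a b : ℝ) (v : E) :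
    (ex (a • v) : NG A) * ex (b • v) = ex ((a + b) • v) := by
  ext
  · simp [add_smul]
  · simp [hA.alt]
theorem ex_mul_ex (v v' : E) : (ex v : NG A) * ex v' = ex (v + v') * ce (A v v') := by
  ext <;> simp
theorem eq_ex_ce (x : NG A) : x = ex x.v * ce x.w := by ext <;> simp
theorem comm_ex (hA : Good A) (v v' : E) :
    (ex v : NG A) * ex v' * ex (-v) * ex (-v') = ce ((2 : ℝ) • A v v') := by
  ext
  · simp
  · have := hA.anti v v'
    simp [hA.alt, this, two_smul]
theorem ce_comm (w : W) (x : NG A) : ce w * x = x * ce w := by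
  ext
  · simp
  · simp [add_comm]

end

section
variable {E W E' W' : Type} [NormedAddCommGroup E] [NormedSpace ℝ E] [NormedAddCommGroup W]
  [NormedSpace ℝ W] {A : E →ₗ[ℝ] E →ₗ[ℝ] W}
  [NormedAddCommGroup E'] [NormedSpace ℝ E'] [NormedAddCommGroup W']
  [NormedSpace ℝ W'] {A' : E' →ₗ[ℝ] E' →ₗ[ℝ] W'}

theorem hom_of_sd (hA : Good A) (hA' : Good A') (G : NG A → NG A') {c C : ℝ} (hc : 0 < c)
    (hC : 0 ≤ C) (G1 : G 1 = 1) (hup : ∀ x y, dd (G x) (G y) ≤ C * dd x y)
    (hlo : ∀ x y, c * dd x y ≤ dd (G x) (G y))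
    (hsd : ∀ x v, (G (x * ex v * ex v)).v - (2 : ℝ) • (G (x * ex v)).v + (G x).v = 0)
    (hspan : ∀ w : W, w ∈ AddSubgroup.closure {w : W | ∃ v v', w = A v v'}) :
    ∃ D : E →ₗ[ℝ] E', Function.Injective D ∧ ∃ Φ : W →ₗ[ℝ] W', Function.Injective Φ ∧
      ∀ v v', A' (D v) (D v') = Φ (A v v') := by
  obtain ⟨u, hu⟩ : ∃ u : NG A → E', ∀ x, (G x).v = u x := ⟨_, fun _ => rfl⟩
  simp only [hu] at hsd
  have hul : ∀ x y, ‖u x - u y‖ ≤ C * dd x y := by
    intro x y
    have e1 := norm_v_sub_le (G y) (G x)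
    have e2 := hup y x
    rw [dd_comm hA y x] at e2
    rw [hu, hu] at e1
    exact e1.trans e2
  have huc : Continuous u := continuous_of_lip hA hul
  have u1 : u 1 = 0 := by rw [← hu, G1]; rfl
  -- linearity along lines
  have hL : ∀ x v (τ : ℝ), u (x * ex (τ • v)) - u x = τ • (u (x * ex v) - u x) := by
    intro x v τ
    have hJ : ∀ a b : ℝ, u (x * ex (b • v)) + u (x * ex (a • v)) =
        (2 : ℝ) • u (x * ex (((a + b) / 2) • v)) := by
      intro a b
      have h := hsd (x * ex (a • v)) (((b - a) / 2) • v)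
      rw [mul_assoc x, ex_smul_mul hA, mul_assoc x, ex_smul_mul hA] at h
      have e1 : a + (b - a) / 2 = (a + b) / 2 := by ring
      have e2 : a + (b - a) / 2 + (b - a) / 2 = b := by ring
      rw [e2, e1] at h
      have h' := sub_eq_iff_eq_add.1 (eq_neg_of_add_eq_zero_left h)
      rw [h']
      abel
    let φ : ℝ →+ E' := AddMonoidHom.mk' (fun t => u (x * ex (t • v)) - u x) (by
      intro a b
      have h1 := hJ a b
      have h2 := hJ 0 (a + b)
      rw [zero_smul, ex_zero, mul_one, zero_add] at h2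
      rw [← h2] at h1
      have h3 : u (x * ex ((a + b) • v)) = u (x * ex (b • v)) + u (x * ex (a • v)) - u x := by
        rw [h1]; abel
      rw [h3]
      abel)
    have hφ : Continuous φ := by
      have : Continuous (fun t : ℝ => u (x * ex (t • v)) - u x) :=
        (huc.comp ((continuous_mulN hA).comp (continuous_const.prodMk
          (continuous_ex.comp (continuous_id.smul continuous_const))))).sub continuous_const
      exact this
    have h := map_real_smul φ hφ τ 1
    simp only [smul_eq_mul, mul_one] at h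
    have e1 : φ τ = u (x * ex (τ • v)) - u x := rfl
    have e2 : φ 1 = u (x * ex v) - u x := by
      change u (x * ex ((1 : ℝ) • v)) - u x = _
      rw [one_smul]
    rw [e1, e2] at h
    exact h
  -- independence of the base point
  have hI : ∀ x v, u (x * ex v) - u x = u (ex v) := by
    intro x v
    obtain ⟨δ, hδ⟩ : ∃ δ : ℝ, δ = ‖(u (x * ex v) - u x) - u (ex v)‖ := ⟨_, rfl⟩
    obtain ⟨K, hK⟩ : ∃ K : ℝ, K = 1 + ‖x.v‖ + ‖x.w‖ + 4 * ‖x.v‖ * ‖v‖ := ⟨_, rfl⟩
    have hK0 : 0 ≤ K := by rw [hK]; positivity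
    have key : ∀ n : ℕ, 1 ≤ n → (n : ℝ) * δ ≤ C * K + C * dd x 1 := by
      intro n hn
      have hn1 : (1 : ℝ) ≤ n := by exact_mod_cast hn
      have hn0 : (0 : ℝ) < n := by linarith
      have h1 := hL x v ((n : ℝ) ^ 2)
      have h2 := hL 1 v ((n : ℝ) ^ 2)
      simp only [one_mul, u1, sub_zero] at h2
      have h3 : ((n : ℝ) ^ 2) • ((u (x * ex v) - u x) - u (ex v)) =
          (u (x * ex (((n : ℝ) ^ 2) • v)) - u (ex (((n : ℝ) ^ 2) • v))) - (u x - u 1) := by
        rw [smul_sub, ← h1, ← h2, u1]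
        abel
      have h4 : (n : ℝ) ^ 2 * δ ≤ C * dd (x * ex (((n : ℝ) ^ 2) • v)) (ex (((n : ℝ) ^ 2) • v)) +
          C * dd x 1 := by
        have e1 : (n : ℝ) ^ 2 * δ = ‖((n : ℝ) ^ 2) • ((u (x * ex v) - u x) - u (ex v))‖ := by
          rw [norm_smul, hδ, Real.norm_eq_abs, abs_of_nonneg (by positivity)]
        rw [e1, h3]
        exact (norm_sub_le _ _).trans (add_le_add (hul _ _) (hul _ _))
      have h5 : dd (x * ex (((n : ℝ) ^ 2) • v)) (ex (((n : ℝ) ^ 2) • v)) ≤ n * K := by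
        unfold dd
        apply nm_le (by positivity)
        · have e1 : ((x * ex (((n : ℝ) ^ 2) • v))⁻¹ * ex (((n : ℝ) ^ 2) • v)).v = -x.v := by
            simp
          rw [e1, norm_neg]
          calc ‖x.v‖ ≤ 1 * K := by rw [hK]; have := norm_nonneg x.w; nlinarith [norm_nonneg x.v, norm_nonneg v, mul_nonneg (norm_nonneg x.v) (norm_nonneg v)]
            _ ≤ n * K := by gcongr
        · have e1 : ((x * ex (((n : ℝ) ^ 2) • v))⁻¹ * ex (((n : ℝ) ^ 2) • v)).w =
              -x.w - (2 * (n : ℝ) ^ 2) • A x.v v := by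
            rw [mul_w, inv_w, hA.alt]
            simp only [mul_w, mul_v, ex_v, ex_w, inv_v, map_add, map_neg,
              LinearMap.add_apply, LinearMap.neg_apply, map_smul, LinearMap.smul_apply, hA.alt,
              smul_zero, add_zero]
            module
          rw [e1]
          have e2 : ‖(2 * (n : ℝ) ^ 2) • A x.v v‖ ≤ (n : ℝ) ^ 2 * (4 * ‖x.v‖ * ‖v‖) := by
            rw [norm_smul, Real.norm_eq_abs, abs_of_nonneg (by positivity)]
            have := hA.bd x.v v
            nlinarith [sq_nonneg (n : ℝ)]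
          have e3 : ‖x.w‖ ≤ (n : ℝ) ^ 2 * ‖x.w‖ := by
            have : (1 : ℝ) ≤ (n : ℝ) ^ 2 := one_le_pow₀ hn1
            nlinarith [norm_nonneg x.w]
          calc ‖-x.w - (2 * (n : ℝ) ^ 2) • A x.v v‖ ≤ ‖x.w‖ + ‖(2 * (n : ℝ) ^ 2) • A x.v v‖ := by
                have := norm_sub_le (-x.w) ((2 * (n : ℝ) ^ 2) • A x.v v)
                rwa [norm_neg] at this
            _ ≤ (n : ℝ) ^ 2 * ‖x.w‖ + (n : ℝ) ^ 2 * (4 * ‖x.v‖ * ‖v‖) := add_le_add e3 e2
            _ = (n : ℝ) ^ 2 * (‖x.w‖ + 4 * ‖x.v‖ * ‖v‖) := by ring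
            _ ≤ (n : ℝ) ^ 2 * (K * K) := by
                apply mul_le_mul_of_nonneg_left _ (by positivity)
                have h1K : 1 ≤ K := by rw [hK]; have := norm_nonneg x.v; have := norm_nonneg x.w; nlinarith [mul_nonneg (norm_nonneg x.v) (norm_nonneg v)]
                have h2K : ‖x.w‖ + 4 * ‖x.v‖ * ‖v‖ ≤ K := by rw [hK]; have := norm_nonneg x.v; linarith
                nlinarith
            _ = (n * K) ^ 2 := by ring
      have h6 : (n : ℝ) ^ 2 * δ ≤ n * (C * K + C * dd x 1) := by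
        calc (n : ℝ) ^ 2 * δ ≤ C * (n * K) + C * dd x 1 :=
              h4.trans (add_le_add (mul_le_mul_of_nonneg_left h5 hC) le_rfl)
          _ ≤ n * (C * K + C * dd x 1) := by
              have : 0 ≤ C * dd x 1 := mul_nonneg hC (dd_nonneg _ _)
              nlinarith
      have h7 : (n : ℝ) * (n * δ) ≤ n * (C * K + C * dd x 1) := by
        calc (n : ℝ) * (n * δ) = (n : ℝ) ^ 2 * δ := by ring
          _ ≤ _ := h6
      exact le_of_mul_le_mul_left h7 hn0
    have hδ0 : δ ≤ 0 := by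
      by_contra hcon
      push Not at hcon
      obtain ⟨n, hn⟩ := exists_nat_gt ((C * K + C * dd x 1) / δ)
      have h1 := key (n + 1) (by omega)
      rw [div_lt_iff₀ hcon] at hn
      push_cast at h1
      linarith
    have hδ1 : ‖(u (x * ex v) - u x) - u (ex v)‖ ≤ 0 := by rw [← hδ]; exact hδ0
    exact sub_eq_zero.1 (norm_le_zero_iff.1 hδ1)
  have hx : ∀ x v, u (x * ex v) = u x + u (ex v) := by
    intro x v
    rw [← hI x v]
    abel
  have hneg : ∀ v, u (ex (-v)) = - u (ex v) := by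
    intro v
    have := hL 1 v (-1)
    simpa [u1] using this
  have hce2 : ∀ x v v', u (x * ce ((2 : ℝ) • A v v')) = u x := by
    intro x v v'
    rw [← comm_ex hA, ← mul_assoc, ← mul_assoc, ← mul_assoc, hx, hx, hx, hx, hneg, hneg]
    abel
  have hce : ∀ w x, u (x * ce w) = u x := by
    intro w
    refine AddSubgroup.closure_induction (p := fun w _ => ∀ x, u (x * ce w) = u x)
      ?_ ?_ ?_ ?_ (hspan w)
    · rintro w ⟨v, v', rfl⟩ x
      have := hce2 x ((1 / 2 : ℝ) • v) v'
      rw [map_smul, LinearMap.smul_apply, smul_smul] at this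
      norm_num at this
      exact this
    · intro x
      rw [ce_zero, mul_one]
    · intro a b _ _ ha hb x
      rw [ce_add, ← mul_assoc, hb, ha]
    · intro a _ ha x
      have := ha (x * ce (-a))
      rw [mul_assoc, ← ce_add, neg_add_cancel, ce_zero, mul_one] at this
      exact this.symm
  let D : E →ₗ[ℝ] E' :=
    { toFun := fun v => u (ex v)
      map_add' := by
        intro v v'
        rw [← hx, ex_mul_ex, hce]
      map_smul' := by
        intro τ v
        have := hL 1 v τ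
        simpa [u1] using this }
  have hD : ∀ v, u (ex v) = D v := fun _ => rfl
  have hux : ∀ x, u x = D x.v := by
    intro x
    rw [eq_ex_ce x, hce, hD]
    simp
  -- the homomorphism property
  have hG : ∀ x v, G (x * ex v) = G x * ex (D v) := by
    intro x v
    obtain ⟨H, hH⟩ : ∃ H : ℝ → NG A', ∀ τ, H τ = (G x)⁻¹ * G (x * ex (τ • v)) := ⟨_, fun _ => rfl⟩
    have hHv : ∀ τ, (H τ).v = τ • D v := by
      intro τ
      rw [hH, mul_v, inv_v, hu, hu, hx, hD, map_smul]
      abel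
    have hHd : ∀ τ σ, nm ((H τ)⁻¹ * H σ) ≤ C * (|σ - τ| * ‖v‖) := by
      intro τ σ
      have e1 : (H τ)⁻¹ * H σ = (G (x * ex (τ • v)))⁻¹ * G (x * ex (σ • v)) := by
        rw [hH, hH]; group
      rw [e1]
      refine (hup (x * ex (τ • v)) (x * ex (σ • v))).trans ?_
      apply mul_le_mul_of_nonneg_left _ hC
      rw [dd_left]
      unfold dd
      apply nm_le (by positivity)
      · have : ((ex (τ • v) : NG A)⁻¹ * ex (σ • v)).v = (σ - τ) • v := by
          simp only [mul_v, inv_v, ex_v]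
          module
        rw [this, norm_smul, Real.norm_eq_abs]
      · have : ((ex (τ • v) : NG A)⁻¹ * ex (σ • v)).w = 0 := by
          simp [hA.alt]
        rw [this, norm_zero]
        positivity
    have hHw : ∀ τ σ, ((H τ)⁻¹ * H σ).w = (H σ).w - (H τ).w := by
      intro τ σ
      rw [mul_w, inv_w, hA'.alt, inv_v, hHv, hHv]
      simp [hA'.alt]
      abel
    have hζ := eq_of_sq_bound (fun τ => (H τ).w) ((C * ‖v‖) ^ 2) (by
      intro a b
      rw [← hHw a b]
      calc ‖((H a)⁻¹ * H b).w‖ ≤ nm ((H a)⁻¹ * H b) ^ 2 := norm_w_le _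
        _ ≤ (C * (|b - a| * ‖v‖)) ^ 2 := pow_le_pow_left₀ (nm_nonneg _) (hHd a b) 2
        _ = (C * ‖v‖) ^ 2 * (b - a) ^ 2 := by
            rw [mul_pow, mul_pow, sq_abs]; ring)
    have hH0 : H 0 = 1 := by
      rw [hH, zero_smul, ex_zero, mul_one, inv_mul_cancel]
    have hH1 : H 1 = ex (D v) := by
      ext1
      · rw [hHv, one_smul, ex_v]
      · rw [ex_w]
        simp only [hH0, one_w] at hζ
        exact hζ
    rw [← hH1, hH, one_smul, mul_inv_cancel_left]
  have hG2 : ∀ x v v', G (x * ce ((2 : ℝ) • A v v')) = G x * ce ((2 : ℝ) • A' (D v) (D v')) := by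
    intro x v v'
    rw [← comm_ex hA, ← mul_assoc, ← mul_assoc, ← mul_assoc, hG, hG, hG, hG, map_neg, map_neg,
      ← comm_ex hA']
    simp only [mul_assoc]
  have hG3 : ∀ x v v', G (x * ce (A v v')) = G x * ce (A' (D v) (D v')) := by
    intro x v v'
    have := hG2 x ((1 / 2 : ℝ) • v) v'
    rw [map_smul, LinearMap.smul_apply, smul_smul, map_smul, map_smul, LinearMap.smul_apply,
      smul_smul] at this
    norm_num at this
    exact this
  have hΦ : ∀ w, ∃ w', ∀ x, G (x * ce w) = G x * ce w' := by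
    intro w
    refine AddSubgroup.closure_induction (p := fun w _ => ∃ w', ∀ x, G (x * ce w) = G x * ce w')
      ?_ ?_ ?_ ?_ (hspan w)
    · rintro w ⟨v, v', rfl⟩
      exact ⟨_, fun x => hG3 x v v'⟩
    · refine ⟨0, fun x => ?_⟩
      rw [ce_zero, mul_one, ce_zero, mul_one]
    · rintro a b _ _ ⟨a', ha⟩ ⟨b', hb⟩
      refine ⟨a' + b', fun x => ?_⟩
      rw [ce_add, ← mul_assoc, hb, ha, ce_add, mul_assoc]
    · rintro a _ ⟨a', ha⟩
      refine ⟨-a', fun x => ?_⟩
      have := ha (x * ce (-a))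
      rw [mul_assoc, ← ce_add, neg_add_cancel, ce_zero, mul_one] at this
      rw [this, mul_assoc, ← ce_add, add_neg_cancel, ce_zero, mul_one]
  choose Φ hΦ using hΦ
  have hΦu : ∀ w w', (∀ x, G (x * ce w) = G x * ce w') → Φ w = w' := by
    intro w w' h
    have h1 := h 1
    rw [hΦ w 1] at h1
    have h2 := mul_left_cancel h1
    have h3 := congrArg NG.w h2
    simpa using h3
  have hΦadd : ∀ a b, Φ (a + b) = Φ a + Φ b := by
    intro a b
    apply hΦu
    intro x
    rw [ce_add, ← mul_assoc, hΦ, hΦ, ce_add, mul_assoc]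
  have hnmce : ∀ w : W, nm (ce w : NG A) = Real.sqrt ‖w‖ := by
    intro w
    simp [nm]
  have hΦb : ∀ w, ‖Φ w‖ ≤ C ^ 2 * ‖w‖ := by
    intro w
    have h1 : nm (ce (Φ w) : NG A') ≤ C * Real.sqrt ‖w‖ := by
      have h2 := hup 1 (ce w)
      have h3 := hΦ w 1
      rw [one_mul, G1, one_mul] at h3
      rw [G1, h3, dd_one_left, dd_one_left, hnmce] at h2
      exact h2
    calc ‖Φ w‖ ≤ nm (ce (Φ w) : NG A') ^ 2 := norm_w_le (ce (Φ w) : NG A')
      _ ≤ (C * Real.sqrt ‖w‖) ^ 2 := pow_le_pow_left₀ (nm_nonneg _) h1 2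
      _ = C ^ 2 * ‖w‖ := by rw [mul_pow, Real.sq_sqrt (norm_nonneg _)]
  let Φa : W →+ W' := AddMonoidHom.mk' Φ hΦadd
  have hΦc : Continuous Φa := AddMonoidHomClass.continuous_of_bound Φa (C ^ 2) hΦb
  refine ⟨D, ?_, ⟨⟨Φ, hΦadd⟩, fun τ w => map_real_smul Φa hΦc τ w⟩, ?_, ?_⟩
  · rw [← LinearMap.ker_eq_bot, LinearMap.ker_eq_bot']
    intro v hv
    have h1 := hG 1 v
    rw [hv, ex_zero, mul_one, one_mul] at h1
    have h2 := hlo 1 (ex v)
    rw [h1, dd_self] at h2
    have h3 : dd 1 (ex v : NG A) = 0 := le_antisymm (by nlinarith) (dd_nonneg _ _)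
    have h4 := congrArg NG.v (dd_eq_zero h3)
    simpa using h4.symm
  · rw [← LinearMap.ker_eq_bot, LinearMap.ker_eq_bot']
    intro w hw
    have hw' : Φ w = 0 := hw
    have h1 := hΦ w 1
    rw [hw', ce_zero, mul_one, one_mul] at h1
    have h2 := hlo 1 (ce w)
    rw [h1, dd_self] at h2
    have h3 : dd 1 (ce w : NG A) = 0 := le_antisymm (by nlinarith) (dd_nonneg _ _)
    have h4 := congrArg NG.w (dd_eq_zero h3)
    simpa using h4.symm
  · intro v v'
    exact (hΦu _ _ fun x => hG3 x v v').symm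

end

end Pool.Agent.H763
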