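import Pool.Agent.H763.Props

set_option autoImplicit false

namespace Pool.Agent.H763

/-- local cocycles -/
def IsLoc {X A : Type} [Group A] (r : X → X → Prop) (c : X → X → A) : Prop :=
  ∀ x y z, r x y → r y z → r x z → c x y * c y z = c x z

/-- local cocycles are coboundaries -/
def SCr {X : Type} (r : X → X → Prop) : Prop :=
  ∀ (A : Type) [Group A] (c : X → X → A), IsLoc r c → ∃ ψ : X → A, ∀ x y, r x y → c x y = (ψ x)⁻¹ * ψ y

section
variable {X A : Type} [Group A] {r : X → X → Prop} {c : X → X → A}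

theorem IsLoc.self (h : IsLoc r c) {x : X} (hx : r x x) : c x x = 1 := by
  have := h x x x hx hx hx
  exact mul_eq_left.1 this

theorem IsLoc.symm (h : IsLoc r c) {x y : X} (hx : r x x) (hxy : r x y) (hyx : r y x) :
    c y x = (c x y)⁻¹ := by
  have := h x y x hxy hyx hx
  rw [h.self hx] at this
  exact eq_inv_of_mul_eq_one_right this

end

theorem exists_int_fun {A : Type} [Group A] (g : ℤ → A) : ∃ χ : ℤ → A, ∀ i, χ (i + 1) = χ i * g i := by
  let T : Equiv.Perm (A × ℤ) :=
    { toFun := fun p => (p.1 * g p.2, p.2 + 1)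
      invFun := fun p => (p.1 * (g (p.2 - 1))⁻¹, p.2 - 1)
      left_inv := by
        rintro ⟨a, i⟩
        simp
      right_inv := by
        rintro ⟨a, i⟩
        simp }
  have h2 : ∀ i : ℤ, ((T ^ i) (1, 0)).2 = i := by
    intro i
    induction i using Int.induction_on with
    | zero => simp
    | succ i ih =>
      rw [add_comm, zpow_add, zpow_one, Equiv.Perm.mul_apply]
      show ((T ^ (i : ℤ)) (1, 0)).2 + 1 = _
      rw [ih, add_comm]
    | pred i ih =>
      have : (-(i : ℤ) - 1) = -1 + -(i : ℤ) := by ring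
      rw [this, zpow_add, zpow_neg_one, Equiv.Perm.mul_apply]
      show ((T ^ (-(i : ℤ))) (1, 0)).2 - 1 = _
      rw [ih]
      ring
  refine ⟨fun i => ((T ^ i) (1, 0)).1, fun i => ?_⟩
  show ((T ^ (i + 1)) (1, 0)).1 = _
  rw [add_comm, zpow_add, zpow_one, Equiv.Perm.mul_apply]
  show ((T ^ i) (1, 0)).1 * g ((T ^ i) (1, 0)).2 = _
  rw [h2]

theorem sc_int (M : ℕ) (hM : 1 ≤ M) : SCr (fun i j : ℤ => |i - j| ≤ M) := by
  intro A _ c hc
  obtain ⟨χ, hχ⟩ := exists_int_fun (fun i => c i (i + 1))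
  have key : ∀ d : ℕ, d ≤ M → ∀ i, c i (i + d) = (χ i)⁻¹ * χ (i + d) := by
    intro d
    induction d with
    | zero =>
      intro _ i
      have := hc.self (x := i) (by simp)
      simpa using this
    | succ d ih =>
      intro hd i
      have h1 := hc i (i + d) (i + (d + 1 : ℕ))
        (abs_le.2 ⟨by omega, by omega⟩)
        (abs_le.2 ⟨by push_cast; omega, by push_cast; omega⟩)
        (abs_le.2 ⟨by push_cast; omega, by push_cast; omega⟩)
      rw [← h1, ih (by omega)]
      have h2 := hχ (i + d)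
      have h3 : i + (d + 1 : ℕ) = i + d + 1 := by push_cast; ring
      rw [h3, h2]
      group
  refine ⟨χ, fun i j hij => ?_⟩
  have hij' := abs_le.1 hij
  rcases le_total i j with h | h
  · obtain ⟨d, hd⟩ := Int.eq_ofNat_of_zero_le (sub_nonneg.2 h)
    have : j = i + d := by omega
    subst this
    exact key d (by omega) i
  · obtain ⟨d, hd⟩ := Int.eq_ofNat_of_zero_le (sub_nonneg.2 h)
    have : i = j + d := by omega
    subst this
    have h1 := key d (by omega) j
    have h2 := hc.symm (x := j) (y := j + d) (by simp)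
      (abs_le.2 ⟨by omega, by omega⟩)
      (abs_le.2 ⟨by omega, by omega⟩)
    rw [h2, h1]
    group

theorem sc_prod {X : Type} {r : X → X → Prop} (hr : ∀ x, r x x) (h : SCr r) (M : ℕ) (hM : 1 ≤ M) :
    SCr (fun p q : X × ℤ => r p.1 q.1 ∧ |p.2 - q.2| ≤ M) := by
  intro A _ c hc
  obtain ⟨φ, hφ⟩ := h A (fun x y => c (x, 0) (y, 0)) (by
    intro x y z h1 h2 h3
    exact hc (x, 0) (y, 0) (z, 0) ⟨h1, by simp⟩ ⟨h2, by simp⟩ ⟨h3, by simp⟩)
  have hcol : ∀ x, ∃ χ : ℤ → A, ∀ i j : ℤ, |i - j| ≤ M → c (x, i) (x, j) = (χ i)⁻¹ * χ j := by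
    intro x
    exact sc_int M hM A (fun i j => c (x, i) (x, j)) (by
      intro i j k h1 h2 h3
      exact hc (x, i) (x, j) (x, k) ⟨hr x, h1⟩ ⟨hr x, h2⟩ ⟨hr x, h3⟩)
  choose χ hχ using hcol
  have hM1 : (1 : ℤ) ≤ M := by exact_mod_cast hM
  have step : ∀ x y, r x y → ∀ n m : ℤ, |n - m| ≤ 1 →
      c (x, n) (y, n) = (φ x * (χ x 0)⁻¹ * χ x n)⁻¹ * (φ y * (χ y 0)⁻¹ * χ y n) →
      c (x, m) (y, m) = (φ x * (χ x 0)⁻¹ * χ x m)⁻¹ * (φ y * (χ y 0)⁻¹ * χ y m) := by
    intro x y hxy n m hnm hn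
    have hnm' : |m - n| ≤ (M : ℤ) := by rw [abs_sub_comm]; exact hnm.trans hM1
    have hnm'' : |n - m| ≤ (M : ℤ) := hnm.trans hM1
    have h1 := hc (x, m) (x, n) (y, m) ⟨hr x, hnm'⟩ ⟨hxy, hnm''⟩ ⟨hxy, by simp⟩
    have h2 := hc (x, n) (y, n) (y, m) ⟨hxy, by simp⟩ ⟨hr y, hnm''⟩ ⟨hxy, hnm''⟩
    rw [← h1, ← h2, hn, hχ x m n hnm', hχ y n m hnm'']
    group
  have hdiag : ∀ x y, r x y → ∀ n : ℤ,
      c (x, n) (y, n) = (φ x * (χ x 0)⁻¹ * χ x n)⁻¹ * (φ y * (χ y 0)⁻¹ * χ y n) := by
    intro x y hxy n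
    induction n using Int.induction_on with
    | zero =>
      have := hφ x y hxy
      rw [this]
      group
    | succ i ih => exact step x y hxy i (i + 1) (by simp) ih
    | pred i ih => exact step x y hxy (-i) (-i - 1) (by simp) ih
  refine ⟨fun p => φ p.1 * (χ p.1 0)⁻¹ * χ p.1 p.2, ?_⟩
  rintro ⟨x, i⟩ ⟨y, j⟩ ⟨hxy, hij⟩
  have h1 := hc (x, i) (x, j) (y, j) ⟨hr x, hij⟩ ⟨hxy, by simp⟩ ⟨hxy, hij⟩
  rw [← h1, hχ x i j hij, hdiag x y hxy j]
  group

theorem sc_pi (M : ℕ) (hM : 1 ≤ M) (n : ℕ) : SCr (fun x y : Fin n → ℤ => ∀ k, |x k - y k| ≤ M) := by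
  induction n with
  | zero =>
    intro A _ c hc
    refine ⟨fun _ => 1, fun x y _ => ?_⟩
    have : x = y := Subsingleton.elim _ _
    subst this
    rw [hc.self (fun k => by simp)]
    simp
  | succ n ih =>
    intro A _ c hc
    obtain ⟨ψ, hψ⟩ := sc_prod (fun x k => by simp) ih M hM A
      (fun p q => c (Fin.cons p.2 p.1) (Fin.cons q.2 q.1)) (by
        rintro ⟨x, i⟩ ⟨y, j⟩ ⟨z, k⟩ ⟨h1, h1'⟩ ⟨h2, h2'⟩ ⟨h3, h3'⟩
        apply hc
        · intro l
          refine Fin.cases ?_ (fun l => ?_) l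
          · simpa using h1'
          · simpa using h1 l
        · intro l
          refine Fin.cases ?_ (fun l => ?_) l
          · simpa using h2'
          · simpa using h2 l
        · intro l
          refine Fin.cases ?_ (fun l => ?_) l
          · simpa using h3'
          · simpa using h3 l)
    refine ⟨fun x => ψ (Fin.tail x, x 0), fun x y hxy => ?_⟩
    have := hψ (Fin.tail x, x 0) (Fin.tail y, y 0) ⟨fun k => hxy k.succ, hxy 0⟩
    simpa [Fin.cons_self_tail] using this

theorem const_of_step {n : ℕ} {B : Type} (f : (Fin n → ℤ) → B)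
    (h : ∀ x y, (∀ k, |x k - y k| ≤ 1) → f x = f y) (x y : Fin n → ℤ) : f x = f y := by
  have key : ∀ N : ℕ, ∀ x : Fin n → ℤ, (∀ k, |x k| ≤ N) → f x = f 0 := by
    intro N
    induction N with
    | zero =>
      intro x hx
      have : x = 0 := by
        funext k
        have := hx k
        simpa using this
      rw [this]
    | succ N ih =>
      intro x hx
      rw [← ih (fun k => x k - Int.sign (x k)) (fun k => ?_)]
      · apply h
        intro k
        simp only [sub_sub_cancel]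
        rcases Int.lt_trichotomy (x k) 0 with h1 | h1 | h1
        · rw [Int.sign_eq_neg_one_of_neg h1]; simp
        · rw [h1]; simp
        · rw [Int.sign_eq_one_of_pos h1]; simp
      · have h2 := abs_le.1 (hx k)
        push_cast at h2
        rw [abs_le]
        rcases Int.lt_trichotomy (x k) 0 with h1 | h1 | h1
        · rw [Int.sign_eq_neg_one_of_neg h1]; constructor <;> omega
        · rw [h1]; simp
        · rw [Int.sign_eq_one_of_pos h1]; constructor <;> omega
  obtain ⟨N, hN⟩ : ∃ N : ℕ, ∀ k, |x k| ≤ N ∧ |y k| ≤ N := by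
    refine ⟨∑ k, ((x k).natAbs + (y k).natAbs), fun k => ?_⟩
    have h1 := Finset.single_le_sum (f := fun k => (x k).natAbs + (y k).natAbs)
      (fun k _ => Nat.zero_le _) (Finset.mem_univ k)
    constructor
    · rw [Int.abs_eq_natAbs]
      exact_mod_cast (Nat.le_add_right _ _).trans h1
    · rw [Int.abs_eq_natAbs]
      exact_mod_cast (Nat.le_add_left _ _).trans h1
  rw [key N x fun k => (hN k).1, key N y fun k => (hN k).2]

end Pool.Agent.H763
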