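import Pool.Agent.H763.Loc

set_option autoImplicit false

namespace Pool.Agent.H763

section
variable {m n : ℕ} {A : (Fin m → ℝ) →ₗ[ℝ] (Fin m → ℝ) →ₗ[ℝ] (Fin n → ℝ)}

/-- cast of an integer vector -/
def cv {m : ℕ} (v : Fin m → ℤ) : Fin m → ℝ := fun i => (v i : ℝ)

theorem mk_dd (hA : Good A) {v v' : Fin m → ℤ} {w w' : Fin n → ℤ} {T : ℝ} (hT : 0 ≤ T)
    (h1 : ∀ k, |(v' k : ℝ) - v k| ≤ T) (h2 : ∀ k, |(w' k : ℝ) - w k - A (cv v) (cv v') k| ≤ T ^ 2) :
    dd (emb A (v, w)) (emb A (v', w')) ≤ T := by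
  obtain ⟨e1, e2⟩ := dd_emb hA (emb A (v, w)) (v', w')
  unfold dd
  apply nm_le hT
  · rw [e1, pi_norm_le_iff_of_nonneg hT]
    intro k
    rw [Real.norm_eq_abs]
    exact h1 k
  · rw [e2, pi_norm_le_iff_of_nonneg (by positivity)]
    intro k
    rw [Real.norm_eq_abs]
    have := h2 k
    have e3 : (w' k : ℝ) - ((emb A (v, w)).w + A (emb A (v, w)).v (fun k => (v' k : ℝ))) k =
        (w' k : ℝ) - w k - A (cv v) (cv v') k := by
      show (w' k : ℝ) - ((w k : ℝ) + A (cv v) (cv v') k) = _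
      ring
    rw [e3]
    exact this

theorem of_dd (hA : Good A) {v v' : Fin m → ℤ} {w w' : Fin n → ℤ} {T : ℝ} (hT : 0 ≤ T)
    (h : dd (emb A (v, w)) (emb A (v', w')) ≤ T) :
    (∀ k, |(v' k : ℝ) - v k| ≤ T) ∧ (∀ k, |(w' k : ℝ) - w k - A (cv v) (cv v') k| ≤ T ^ 2) := by
  obtain ⟨e1, e2⟩ := dd_emb hA (emb A (v, w)) (v', w')
  unfold dd at h
  have h1 := (norm_v_le _).trans h
  have h2 := (norm_w_le ((emb A (v, w))⁻¹ * emb A (v', w'))).trans (pow_le_pow_left₀ (nm_nonneg _) h 2)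
  rw [e1, pi_norm_le_iff_of_nonneg hT] at h1
  rw [e2, pi_norm_le_iff_of_nonneg (by positivity)] at h2
  constructor
  · intro k
    have := h1 k
    rwa [Real.norm_eq_abs] at this
  · intro k
    have := h2 k
    rw [Real.norm_eq_abs] at this
    have e3 : (w' k : ℝ) - ((emb A (v, w)).w + A (emb A (v, w)).v (fun k => (v' k : ℝ))) k =
        (w' k : ℝ) - w k - A (cv v) (cv v') k := by
      show (w' k : ℝ) - ((w k : ℝ) + A (cv v) (cv v') k) = _
      ring
    rw [← e3]
    exact this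

/-- rounded bracket -/
noncomputable def ra (A : (Fin m → ℝ) →ₗ[ℝ] (Fin m → ℝ) →ₗ[ℝ] (Fin n → ℝ)) (v v' : Fin m → ℤ) :
    Fin n → ℤ := fun k => round (A (cv v) (cv v') k)

theorem ra_bd (v v' : Fin m → ℤ) (k : Fin n) : |(ra A v v' k : ℝ) - A (cv v) (cv v') k| ≤ 1 / 2 := by
  rw [abs_sub_comm]
  exact abs_sub_round _

theorem cast_le {a b : ℤ} {N : ℕ} (h : |a - b| ≤ (N : ℤ)) : |(b : ℝ) - a| ≤ N := by
  rw [abs_sub_comm]
  exact_mod_cast h

theorem cocyc_bd (hA : Good A) {v v' v'' : Fin m → ℤ} (h1 : ∀ k, |v k - v' k| ≤ ((3 : ℕ) : ℤ))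
    (h2 : ∀ k, |v' k - v'' k| ≤ ((3 : ℕ) : ℤ)) (k : Fin n) :
    |A (cv v) (cv v') k + A (cv v') (cv v'') k - A (cv v) (cv v'') k| ≤ 18 := by
  have e : A (cv v) (cv v') + A (cv v') (cv v'') - A (cv v) (cv v'') =
      A (cv v' - cv v) (cv v'' - cv v') := by
    simp only [map_sub, LinearMap.sub_apply, hA.alt]
    abel
  have hb := hA.bd (cv v' - cv v) (cv v'' - cv v')
  have n1 : ‖cv v' - cv v‖ ≤ 3 := by
    rw [pi_norm_le_iff_of_nonneg (by norm_num)]
    intro k
    have := cast_le (h1 k)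
    rw [Real.norm_eq_abs]
    simpa [cv] using this
  have n2 : ‖cv v'' - cv v'‖ ≤ 3 := by
    rw [pi_norm_le_iff_of_nonneg (by norm_num)]
    intro k
    have := cast_le (h2 k)
    rw [Real.norm_eq_abs]
    simpa [cv] using this
  have hk := norm_le_pi_norm (A (cv v' - cv v) (cv v'' - cv v')) k
  rw [Real.norm_eq_abs, ← e] at hk
  have : 2 * ‖cv v' - cv v‖ * ‖cv v'' - cv v'‖ ≤ 18 := by
    nlinarith [norm_nonneg (cv v' - cv v), norm_nonneg (cv v'' - cv v')]
  rw [← e] at hb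
  exact hk.trans (hb.trans this)

theorem sc_V (hA : Good A) {ρ : ℝ} (hρ : 10 ≤ ρ) (B : Type) [Group B] (c : VV m n → VV m n → B)
    (hc : IsLoc (fun x y => dd (emb A x) (emb A y) ≤ ρ) c) :
    ∃ ψ : VV m n → B, ∀ x y, dd (emb A x) (emb A y) ≤ 3 → c x y = (ψ x)⁻¹ * ψ y := by
  have hR : ∀ (v v' : Fin m → ℤ) (w w' : Fin n → ℤ), (∀ k, |(v' k : ℝ) - v k| ≤ 10) →
      (∀ k, |(w' k : ℝ) - w k - A (cv v) (cv v') k| ≤ 100) →
      dd (emb A (v, w)) (emb A (v', w')) ≤ ρ := by
    intro v v' w w' h1 h2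
    refine (mk_dd hA (T := 10) (by norm_num) h1 ?_).trans hρ
    intro k
    exact (h2 k).trans (by norm_num)
  have hAk : ∀ (v : Fin m → ℤ) (k : Fin n), A (cv v) (cv v) k = 0 := by
    intro v k
    rw [hA.alt]
    rfl
  -- fibres
  have hfib : ∀ v : Fin m → ℤ, ∃ ψ : (Fin n → ℤ) → B, ∀ w w', (∀ k, |w k - w' k| ≤ ((40 : ℕ) : ℤ)) →
      c (v, w) (v, w') = (ψ w)⁻¹ * ψ w' := by
    intro v
    have hloc : ∀ w w' : Fin n → ℤ, (∀ k, |w k - w' k| ≤ ((40 : ℕ) : ℤ)) →
        dd (emb A (v, w)) (emb A (v, w')) ≤ ρ := by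
      intro w w' h
      apply hR
      · intro k; simp
      · intro k
        rw [hAk, sub_zero]
        exact (cast_le (h k)).trans (by norm_num)
    exact sc_pi 40 (by norm_num) n B (fun w w' => c (v, w) (v, w')) (by
      intro x y z h1 h2 h3
      exact hc _ _ _ (hloc _ _ h1) (hloc _ _ h2) (hloc _ _ h3))
  choose ψ hψ using hfib
  -- transport is constant
  have hconst : ∀ v v' : Fin m → ℤ, (∀ k, |v k - v' k| ≤ ((3 : ℕ) : ℤ)) → ∀ w w' : Fin n → ℤ,
      ψ v w * c (v, w) (v', w + ra A v v') * (ψ v' (w + ra A v v'))⁻¹ =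
      ψ v w' * c (v, w') (v', w' + ra A v v') * (ψ v' (w' + ra A v v'))⁻¹ := by
    intro v v' hv
    have hv' : ∀ k, |(v' k : ℝ) - v k| ≤ 10 := fun k => (cast_le (hv k)).trans (by norm_num)
    apply const_of_step
    intro w w' hw
    have hwr : ∀ k, |(w' k : ℝ) - w k| ≤ 1 := fun k => by
      have := hw k
      rw [abs_sub_comm]
      exact_mod_cast this
    have h1 := hc (v, w) (v, w') (v', w' + ra A v v')
      (hR _ _ _ _ (fun k => by simp) (fun k => by
        rw [hAk, sub_zero]; exact (hwr k).trans (by norm_num)))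
      (hR _ _ _ _ hv' (fun k => by
        have := abs_le.1 (ra_bd (A := A) v v' k)
        simp only [Pi.add_apply, Int.cast_add]
        rw [abs_le]; constructor <;> linarith [this.1, this.2]))
      (hR _ _ _ _ hv' (fun k => by
        have := abs_le.1 (ra_bd (A := A) v v' k)
        have h2 := abs_le.1 (hwr k)
        simp only [Pi.add_apply, Int.cast_add]
        rw [abs_le]; constructor <;> linarith [this.1, this.2, h2.1, h2.2]))
    have h2 := hc (v, w) (v', w + ra A v v') (v', w' + ra A v v')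
      (hR _ _ _ _ hv' (fun k => by
        have := abs_le.1 (ra_bd (A := A) v v' k)
        simp only [Pi.add_apply, Int.cast_add]
        rw [abs_le]; constructor <;> linarith [this.1, this.2]))
      (hR _ _ _ _ (fun k => by simp) (fun k => by
        have h2 := abs_le.1 (hwr k)
        rw [hAk, sub_zero]
        simp only [Pi.add_apply, Int.cast_add]
        rw [abs_le]; constructor <;> linarith [h2.1, h2.2]))
      (hR _ _ _ _ hv' (fun k => by
        have := abs_le.1 (ra_bd (A := A) v v' k)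
        have h2 := abs_le.1 (hwr k)
        simp only [Pi.add_apply, Int.cast_add]
        rw [abs_le]; constructor <;> linarith [this.1, this.2, h2.1, h2.2]))
    have h3 := hψ v w w' (fun k => (hw k).trans (by norm_num))
    have h4 := hψ v' (w + ra A v v') (w' + ra A v v') (fun k => by
      have := hw k
      simp only [Pi.add_apply, add_sub_add_right_eq_sub]
      exact this.trans (by norm_num))
    rw [← h2, h3, h4] at h1
    have h5 : c (v, w') (v', w' + ra A v v') = (ψ v w')⁻¹ * ψ v w * c (v, w) (v', w + ra A v v') *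
        (ψ v' (w + ra A v v'))⁻¹ * ψ v' (w' + ra A v v') := by
      have h6 : c (v, w') (v', w' + ra A v v') = ((ψ v w)⁻¹ * ψ v w')⁻¹ *
          (((ψ v w)⁻¹ * ψ v w') * c (v, w') (v', w' + ra A v v')) := by group
      rw [h6, h1]
      group
    rw [h5]
    group
  -- base cocycle
  obtain ⟨θ, hθ⟩ := sc_pi 3 (by norm_num) m B
    (fun v v' => ψ v 0 * c (v, 0) (v', 0 + ra A v v') * (ψ v' (0 + ra A v v'))⁻¹) (by
    intro v v' v'' h1 h2 h3
    have hv1 : ∀ k, |(v' k : ℝ) - v k| ≤ 10 := fun k => (cast_le (h1 k)).trans (by norm_num)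
    have hv2 : ∀ k, |(v'' k : ℝ) - v' k| ≤ 10 := fun k => (cast_le (h2 k)).trans (by norm_num)
    have hv3 : ∀ k, |(v'' k : ℝ) - v k| ≤ 10 := fun k => (cast_le (h3 k)).trans (by norm_num)
    have hcb := cocyc_bd (n := n) hA h1 h2
    show ψ v 0 * c (v, 0) (v', 0 + ra A v v') * (ψ v' (0 + ra A v v'))⁻¹ *
      (ψ v' 0 * c (v', 0) (v'', 0 + ra A v' v'') * (ψ v'' (0 + ra A v' v''))⁻¹) =
      ψ v 0 * c (v, 0) (v'', 0 + ra A v v'') * (ψ v'' (0 + ra A v v''))⁻¹
    rw [hconst v' v'' h2 0 (ra A v v'), zero_add, zero_add]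
    have g1 := hc (v, 0) (v', ra A v v') (v'', ra A v v' + ra A v' v'')
      (hR _ _ _ _ hv1 (fun k => by
        have := abs_le.1 (ra_bd (A := A) v v' k)
        simp only [Pi.zero_apply, Int.cast_zero]
        rw [abs_le]; constructor <;> linarith [this.1, this.2]))
      (hR _ _ _ _ hv2 (fun k => by
        have := abs_le.1 (ra_bd (A := A) v' v'' k)
        simp only [Pi.add_apply, Int.cast_add]
        rw [abs_le]; constructor <;> linarith [this.1, this.2]))
      (hR _ _ _ _ hv3 (fun k => by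
        have t1 := abs_le.1 (ra_bd (A := A) v v' k)
        have t2 := abs_le.1 (ra_bd (A := A) v' v'' k)
        have t3 := abs_le.1 (hcb k)
        simp only [Pi.zero_apply, Int.cast_zero, Pi.add_apply, Int.cast_add]
        rw [abs_le]; constructor <;> linarith [t1.1, t1.2, t2.1, t2.2, t3.1, t3.2]))
    have g2 := hc (v, 0) (v'', ra A v v'') (v'', ra A v v' + ra A v' v'')
      (hR _ _ _ _ hv3 (fun k => by
        have := abs_le.1 (ra_bd (A := A) v v'' k)
        simp only [Pi.zero_apply, Int.cast_zero]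
        rw [abs_le]; constructor <;> linarith [this.1, this.2]))
      (hR _ _ _ _ (fun k => by simp) (fun k => by
        have t1 := abs_le.1 (ra_bd (A := A) v v' k)
        have t2 := abs_le.1 (ra_bd (A := A) v' v'' k)
        have t4 := abs_le.1 (ra_bd (A := A) v v'' k)
        have t3 := abs_le.1 (hcb k)
        rw [hAk, sub_zero]
        simp only [Pi.add_apply, Int.cast_add]
        rw [abs_le]; constructor <;> linarith [t1.1, t1.2, t2.1, t2.2, t3.1, t3.2, t4.1, t4.2]))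
      (hR _ _ _ _ hv3 (fun k => by
        have t1 := abs_le.1 (ra_bd (A := A) v v' k)
        have t2 := abs_le.1 (ra_bd (A := A) v' v'' k)
        have t3 := abs_le.1 (hcb k)
        simp only [Pi.zero_apply, Int.cast_zero, Pi.add_apply, Int.cast_add]
        rw [abs_le]; constructor <;> linarith [t1.1, t1.2, t2.1, t2.2, t3.1, t3.2]))
    have g3 := hψ v'' (ra A v v'') (ra A v v' + ra A v' v'') (fun k => by
      have t1 := abs_le.1 (ra_bd (A := A) v v' k)
      have t2 := abs_le.1 (ra_bd (A := A) v' v'' k)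
      have t4 := abs_le.1 (ra_bd (A := A) v v'' k)
      have t3 := abs_le.1 (hcb k)
      have : |((ra A v v'' k - (ra A v v' + ra A v' v'') k : ℤ) : ℝ)| ≤ ((40 : ℕ) : ℝ) := by
        simp only [Pi.add_apply, Int.cast_add, Int.cast_sub]
        push_cast
        rw [abs_le]; constructor <;> linarith [t1.1, t1.2, t2.1, t2.2, t3.1, t3.2, t4.1, t4.2]
      exact_mod_cast this)
    have g4 : c (v, 0) (v'', ra A v v'') = c (v, 0) (v', ra A v v') *
        c (v', ra A v v') (v'', ra A v v' + ra A v' v'') *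
        (ψ v'' (ra A v v' + ra A v' v''))⁻¹ * ψ v'' (ra A v v'') := by
      rw [g1, ← g2, g3]
      group
    rw [g4]
    group)
  refine ⟨fun p => θ p.1 * ψ p.1 p.2, ?_⟩
  rintro ⟨v, w⟩ ⟨v', w'⟩ hxy
  obtain ⟨e1, e2⟩ := of_dd hA (by norm_num : (0 : ℝ) ≤ 3) hxy
  have hv : ∀ k, |v k - v' k| ≤ ((3 : ℕ) : ℤ) := by
    intro k
    have := e1 k
    rw [abs_sub_comm] at this
    exact_mod_cast this
  have hv10 : ∀ k, |(v' k : ℝ) - v k| ≤ 10 := fun k => (e1 k).trans (by norm_num)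
  have g1 := hc (v, w) (v', w + ra A v v') (v', w')
    (hR _ _ _ _ hv10 (fun k => by
      have := abs_le.1 (ra_bd (A := A) v v' k)
      simp only [Pi.add_apply, Int.cast_add]
      rw [abs_le]; constructor <;> linarith [this.1, this.2]))
    (hR _ _ _ _ (fun k => by simp) (fun k => by
      have t1 := abs_le.1 (ra_bd (A := A) v v' k)
      have t2 := abs_le.1 (e2 k)
      rw [hAk, sub_zero]
      simp only [Pi.add_apply, Int.cast_add]
      rw [abs_le]; constructor <;> linarith [t1.1, t1.2, t2.1, t2.2]))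
    (hR _ _ _ _ hv10 (fun k => (e2 k).trans (by norm_num)))
  have g2 := hψ v' (w + ra A v v') w' (fun k => by
    have t1 := abs_le.1 (ra_bd (A := A) v v' k)
    have t2 := abs_le.1 (e2 k)
    have : |(((w + ra A v v') k - w' k : ℤ) : ℝ)| ≤ ((40 : ℕ) : ℝ) := by
      simp only [Pi.add_apply, Int.cast_add, Int.cast_sub]
      push_cast
      rw [abs_le]; constructor <;> linarith [t1.1, t1.2, t2.1, t2.2]
    exact_mod_cast this)
  have g3 := hθ v v' hv
  have g3' : ψ v 0 * c (v, 0) (v', 0 + ra A v v') * (ψ v' (0 + ra A v v'))⁻¹ = (θ v)⁻¹ * θ v' := g3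
  rw [hconst v v' hv 0 w] at g3'
  have g4 : c (v, w) (v', w + ra A v v') = (ψ v w)⁻¹ * ((θ v)⁻¹ * θ v') * ψ v' (w + ra A v v') := by
    rw [← g3']
    group
  rw [← g1, g2, g4]
  show _ = (θ v * ψ v w)⁻¹ * (θ v' * ψ v' w')
  group

end

end Pool.Agent.H763
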