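import Pool.Agent.H763.Loc2

set_option autoImplicit false

namespace Pool.Agent.H763

/-- quasi-isometry to a finitely generated group, in terms of words -/
structure QIK {V P : Type} [Group P] {k : ℕ} (G : SimpleGraph V) (π : FreeGroup (Fin k) →* P)
    (F : V → P) (K : ℕ) : Prop where
  lo : ∀ x y w, F x * π w = F y → G.dist x y ≤ K * w.norm + K
  up : ∀ x y, ∃ w, w.norm ≤ K * G.dist x y + K ∧ F x * π w = F y
  onto : ∀ h, ∃ x w, w.norm ≤ K ∧ F x * π w = h

section
variable {P : Type} [Group P] {k : ℕ}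

theorem finite_norm_le (r : ℕ) : {w : FreeGroup (Fin k) | w.norm ≤ r}.Finite := by
  have h := List.finite_length_le (Fin k × Bool) r
  exact h.preimage FreeGroup.toWord_injective.injOn

theorem exists_word (π : FreeGroup (Fin k) →* P) (hπ : Function.Surjective π) :
    ∃ word : P → FreeGroup (Fin k), (∀ h, π (word h) = h) ∧
      ∀ h w, π w = h → (word h).norm ≤ w.norm := by
  have : ∀ h, ∃ w, π w = h ∧ ∀ w', π w' = h → w.norm ≤ w'.norm := by
    intro h
    obtain ⟨w0, hw0⟩ := hπ h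
    have hne : {n | ∃ w, π w = h ∧ w.norm = n}.Nonempty := ⟨_, w0, hw0, rfl⟩
    obtain ⟨w, hw, hwn⟩ := Nat.sInf_mem hne
    refine ⟨w, hw, fun w' hw' => ?_⟩
    rw [hwn]
    exact Nat.sInf_le ⟨w', hw', rfl⟩
  choose word h1 h2 using this
  exact ⟨word, h1, h2⟩

theorem pres {s : ℝ} (h0 : 0 ≤ s) (h3 : s ≤ 3) (π : FreeGroup (Fin k) →* P)
    (hπ : Function.Surjective π) (F : VV 8 2 → P) (K : ℕ) (h : QIK (GG (AA s)) π F K) :
    ∃ R : Finset (FreeGroup (Fin k)), π.ker = Subgroup.normalClosure (R : Set (FreeGroup (Fin k))) := by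
  have hA := good_AA h0 h3
  obtain ⟨word, hw1, hw2⟩ := exists_word π hπ
  choose X Wd hX1 hX2 using h.onto
  obtain ⟨D, hD⟩ : ∃ D : ℕ, D = K * (2 * K + 1) + K := ⟨_, rfl⟩
  obtain ⟨L, hL⟩ : ∃ L : ℕ, L = K * (18 * (11 + 3 * D)) + K := ⟨_, rfl⟩
  obtain ⟨r, hr⟩ : ∃ r : ℕ, r = 3 * L + 3 * K + 3 := ⟨_, rfl⟩
  have hfin : {w : FreeGroup (Fin k) | w.norm ≤ r ∧ π w = 1}.Finite :=
    (finite_norm_le r).subset fun w hw => hw.1
  refine ⟨hfin.toFinset, ?_⟩
  rw [Set.Finite.coe_toFinset]
  obtain ⟨N, hN⟩ : ∃ N, N = Subgroup.normalClosure {w : FreeGroup (Fin k) | w.norm ≤ r ∧ π w = 1} :=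
    ⟨_, rfl⟩
  rw [← hN]
  have : N.Normal := by rw [hN]; infer_instance
  have hNR : ∀ w : FreeGroup (Fin k), w.norm ≤ r → π w = 1 → w ∈ N := by
    intro w h1 h2
    rw [hN]
    exact Subgroup.subset_normalClosure ⟨h1, h2⟩
  apply le_antisymm
  swap
  · rw [hN]
    apply Subgroup.normalClosure_le_normal
    intro w hw
    exact hw.2
  -- the quotient
  obtain ⟨mk, hmk⟩ : ∃ mk : FreeGroup (Fin k) →* (FreeGroup (Fin k) ⧸ N), mk = QuotientGroup.mk' N :=
    ⟨_, rfl⟩
  have hmk1 : ∀ w, mk w = 1 ↔ w ∈ N := by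
    intro w
    rw [hmk]
    exact QuotientGroup.eq_one_iff w
  have lmul : ∀ a b : P, (word a).norm + (word b).norm + (word (a * b)).norm ≤ r →
      mk (word a) * mk (word b) = mk (word (a * b)) := by
    intro a b hab
    have h1 : word a * word b * (word (a * b))⁻¹ ∈ N := by
      apply hNR
      · calc (word a * word b * (word (a * b))⁻¹).norm
            ≤ (word a * word b).norm + ((word (a * b))⁻¹).norm := FreeGroup.norm_mul_le _ _
          _ ≤ ((word a).norm + (word b).norm) + (word (a * b)).norm := by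
              rw [FreeGroup.norm_inv_eq]
              exact Nat.add_le_add_right (FreeGroup.norm_mul_le _ _) _
          _ ≤ r := hab
      · rw [map_mul, map_mul, map_inv, hw1, hw1, hw1, mul_inv_cancel]
    rw [← hmk1, map_mul, map_mul, map_inv, mul_inv_eq_one] at h1
    exact h1
  have hword : ∀ a b : P, ∀ w, a * π w = b → (word (a⁻¹ * b)).norm ≤ w.norm := by
    intro a b w hw
    apply hw2
    rw [← hw, inv_mul_cancel_left]
  have hFd : ∀ x y, (GG (AA s)).dist x y ≤ 18 * (11 + 3 * D) → (word ((F x)⁻¹ * F y)).norm ≤ L := by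
    intro x y hxy
    obtain ⟨w, hw, hw'⟩ := h.up x y
    calc (word ((F x)⁻¹ * F y)).norm ≤ w.norm := hword _ _ w hw'
      _ ≤ K * (GG (AA s)).dist x y + K := hw
      _ ≤ L := by rw [hL]; exact Nat.add_le_add_right (Nat.mul_le_mul_left _ hxy) _
  have hddL : ∀ x y, dd (emb (AA s) x) (emb (AA s) y) ≤ 10 + 3 * (D : ℝ) →
      (word ((F x)⁻¹ * F y)).norm ≤ L := by
    intro x y hxy
    apply hFd
    have h1 := dist_le h0 h3 x y
    have h2 : ((GG (AA s)).dist x y : ℝ) ≤ ((18 * (11 + 3 * D) : ℕ) : ℝ) := by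
      push_cast
      linarith
    exact_mod_cast h2
  have hloc : IsLoc (fun x y => dd (emb (AA s) x) (emb (AA s) y) ≤ 10 + 3 * (D : ℝ))
      (fun x y => mk (word ((F x)⁻¹ * F y))) := by
    intro x y z h1 h2 h4
    have e1 := hddL x y h1
    have e2 := hddL y z h2
    have e3 := hddL x z h4
    have e4 : ((F x)⁻¹ * F y) * ((F y)⁻¹ * F z) = (F x)⁻¹ * F z := by group
    have e5 := lmul ((F x)⁻¹ * F y) ((F y)⁻¹ * F z) (by rw [e4]; omega)
    rw [e4] at e5
    exact e5
  obtain ⟨ψ, hψ⟩ := sc_V hA (ρ := 10 + 3 * (D : ℝ)) (by linarith [Nat.cast_nonneg (α := ℝ) D]) _ _ hloc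
  have hself : ∀ x, mk (word ((F x)⁻¹ * F x)) = 1 := by
    intro x
    exact hloc.self (x := x) (by rw [dd_self]; positivity)
  have hwalk : ∀ x y (p : (GG (AA s)).Walk x y), p.length ≤ D →
      mk (word ((F x)⁻¹ * F y)) = (ψ x)⁻¹ * ψ y := by
    intro x y p
    induction p with
    | nil =>
      intro _
      rw [hself]
      simp
    | @cons a b c hab p ih =>
      intro hlen
      rw [SimpleGraph.Walk.length_cons] at hlen
      have e1 := ((adj_iff hA _ _).1 hab).2
      have e2 := walk_le hA p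
      have e3 := dd_tri hA (emb (AA s) a) (emb (AA s) b) (emb (AA s) c)
      have e4 : (p.length : ℝ) + 1 ≤ D := by exact_mod_cast hlen
      have e5 := hloc a b c (by linarith) (by linarith) (by linarith)
      have e5' : mk (word ((F a)⁻¹ * F b)) * mk (word ((F b)⁻¹ * F c)) = mk (word ((F a)⁻¹ * F c)) := e5
      rw [← e5', ih (by omega)]
      have e6 := hψ a b e1
      have e6' : mk (word ((F a)⁻¹ * F b)) = (ψ a)⁻¹ * ψ b := e6
      rw [e6']
      group
  have hdist : ∀ x y, (GG (AA s)).dist x y ≤ D → mk (word ((F x)⁻¹ * F y)) = (ψ x)⁻¹ * ψ y := by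
    intro x y hxy
    obtain ⟨p, hp⟩ := (conn h0 h3).exists_walk_length_eq_dist x y
    exact hwalk x y p (by rw [hp]; exact hxy)
  -- the global function on the group
  let Ψ : P → (FreeGroup (Fin k) ⧸ N) := fun g => ψ (X g) * mk (word ((F (X g))⁻¹ * g))
  have hstep : ∀ g i, Ψ (g * π (FreeGroup.of i)) = Ψ g * mk (FreeGroup.of i) := by
    intro g i
    obtain ⟨g', hg'⟩ : ∃ g', g' = g * π (FreeGroup.of i) := ⟨_, rfl⟩
    have n1 : (word ((F (X g))⁻¹ * g)).norm ≤ K := (hword _ _ _ (hX2 g)).trans (hX1 g)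
    have n2 : (word ((F (X g'))⁻¹ * g')).norm ≤ K := (hword _ _ _ (hX2 g')).trans (hX1 g')
    have n3 : (word ((F (X g))⁻¹ * g')).norm ≤ K + 1 := by
      refine (hword _ _ (Wd g * FreeGroup.of i) ?_).trans ?_
      · rw [map_mul, ← mul_assoc, hX2, hg']
      · refine (FreeGroup.norm_mul_le _ _).trans ?_
        rw [FreeGroup.norm_of]
        exact Nat.add_le_add_right (hX1 g) 1
    have n4 : (GG (AA s)).dist (X g) (X g') ≤ D := by
      have e1 := h.lo (X g) (X g') (Wd g * FreeGroup.of i * (Wd g')⁻¹) (by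
        rw [map_mul, map_mul, map_inv, ← mul_assoc, ← mul_assoc, hX2, ← hg']
        rw [mul_inv_eq_iff_eq_mul, hX2])
      have e2 : (Wd g * FreeGroup.of i * (Wd g')⁻¹).norm ≤ 2 * K + 1 := by
        refine (FreeGroup.norm_mul_le _ _).trans ?_
        rw [FreeGroup.norm_inv_eq]
        have e3 := FreeGroup.norm_mul_le (Wd g) (FreeGroup.of i)
        rw [FreeGroup.norm_of] at e3
        have := hX1 g
        have := hX1 g'
        omega
      rw [hD]
      exact e1.trans (Nat.add_le_add_right (Nat.mul_le_mul_left _ e2) _)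
    have n5 : (word ((F (X g))⁻¹ * F (X g'))).norm ≤ L := hFd _ _ (by omega)
    have n6 : (word (π (FreeGroup.of i))).norm ≤ 1 := by
      have := hw2 (π (FreeGroup.of i)) (FreeGroup.of i) rfl
      rwa [FreeGroup.norm_of] at this
    have m1 : mk (word (π (FreeGroup.of i))) = mk (FreeGroup.of i) := by
      have e1 : word (π (FreeGroup.of i)) * (FreeGroup.of i)⁻¹ ∈ N := by
        apply hNR
        · refine (FreeGroup.norm_mul_le _ _).trans ?_
          rw [FreeGroup.norm_inv_eq, FreeGroup.norm_of]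
          omega
        · rw [map_mul, map_inv, hw1, mul_inv_cancel]
      rw [← hmk1, map_mul, map_inv, mul_inv_eq_one] at e1
      exact e1
    have m2 : mk (word ((F (X g))⁻¹ * F (X g'))) * mk (word ((F (X g'))⁻¹ * g')) =
        mk (word ((F (X g))⁻¹ * g')) := by
      have e4 : ((F (X g))⁻¹ * F (X g')) * ((F (X g'))⁻¹ * g') = (F (X g))⁻¹ * g' := by group
      have e5 := lmul ((F (X g))⁻¹ * F (X g')) ((F (X g'))⁻¹ * g') (by rw [e4]; omega)
      rw [e4] at e5
      exact e5
    have m3 : mk (word ((F (X g))⁻¹ * g)) * mk (FreeGroup.of i) = mk (word ((F (X g))⁻¹ * g')) := by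
      rw [← m1]
      have e4 : ((F (X g))⁻¹ * g) * π (FreeGroup.of i) = (F (X g))⁻¹ * g' := by rw [hg']; group
      have e5 := lmul ((F (X g))⁻¹ * g) (π (FreeGroup.of i)) (by rw [e4]; omega)
      rw [e4] at e5
      exact e5
    have m4 := hdist (X g) (X g') n4
    rw [← hg']
    show ψ (X g') * mk (word ((F (X g'))⁻¹ * g')) =
      ψ (X g) * mk (word ((F (X g))⁻¹ * g)) * mk (FreeGroup.of i)
    rw [mul_assoc, m3, ← m2, m4]
    group
  have hall : ∀ w g, Ψ (g * π w) = Ψ g * mk w := by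
    intro w
    refine FreeGroup.induction_on w ?_ ?_ ?_ ?_
    · intro g; simp
    · intro i g; exact hstep g i
    · intro i _ g
      have := hstep (g * π (FreeGroup.of i)⁻¹) i
      rw [map_inv, inv_mul_cancel_right] at this
      rw [map_inv, map_inv, this, mul_inv_cancel_right]
    · intro a b ha hb g
      rw [map_mul, ← mul_assoc, hb, ha, map_mul, mul_assoc]
  intro w hw
  have h1 := hall w 1
  rw [MonoidHom.mem_ker] at hw
  rw [hw, mul_one] at h1
  rw [← hmk1]
  exact (mul_eq_left.1 h1.symm)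

end

end Pool.Agent.H763
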