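import Pool.Agent.H763.Graph

set_option autoImplicit false

namespace Pool.Agent.H763

section
variable {s : ℝ}

theorem stp_ce_dir (h0 : 0 ≤ s) (h3 : s ≤ 3) (j : Fin 4) (c r : ℝ) (hr : 0 ≤ r) (hc : |c| ≤ r ^ 2)
    (k : ℕ) (hk : 2 * r ≤ k) : Stp (AA s) (k + k + k + k) (ce (c • wd s j)) := by
  have hA := good_AA h0 h3
  obtain ⟨q, hq⟩ : ∃ q : ℝ, q = Real.sqrt |c| := ⟨_, rfl⟩
  have hq0 : 0 ≤ q := by rw [hq]; exact Real.sqrt_nonneg _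
  have hq2 : q ^ 2 = |c| := by rw [hq]; exact Real.sq_sqrt (abs_nonneg c)
  have hqr : q ≤ r := by
    rw [← hq2] at hc
    exact (pow_le_pow_iff_left₀ hq0 hr two_ne_zero).1 hc
  obtain ⟨ε, hε, hε1⟩ : ∃ ε : ℝ, |ε| = 1 ∧ ε * |c| = c := by
    rcases le_total 0 c with h | h
    · exact ⟨1, by simp, by rw [abs_of_nonneg h, one_mul]⟩
    · exact ⟨-1, by simp, by rw [abs_of_nonpos h]; ring⟩
  have hn : ∀ (a : ℝ) (i : Fin 8), ‖a • (Pi.single i 1 : ER)‖ = |a| := by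
    intro a i
    rw [norm_smul, Real.norm_eq_abs, Pi.norm_single]
    simp
  have h1 : (ce (c • wd s j) : NG (AA s)) =
      ce ((2 : ℝ) • AA s ((2 * q) • Pi.single (ie j) 1) ((ε * (5 / 4) * q) • Pi.single (io j) 1)) := by
    congr 1
    rw [map_smul, map_smul, LinearMap.smul_apply, AA_single_o', smul_smul, smul_smul, smul_smul,
      Pi.single_eq_same]
    congr 1
    have : ε * q ^ 2 = c := by rw [hq2]; exact hε1
    linear_combination (-1 : ℝ) * this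
  rw [h1]
  apply stp_comm hA
  · rw [hn, abs_of_nonneg (by positivity)]
    linarith
  · rw [hn, abs_mul, abs_mul, hε, abs_of_nonneg hq0, abs_of_pos (by norm_num : (0 : ℝ) < 5 / 4)]
    linarith

theorem stp_all (h0 : 0 ≤ s) (h3 : s ≤ 3) (x : NG (AA s)) (k : ℕ) (hk : 2 * nm x ≤ k) :
    Stp (AA s) (9 * k) x := by
  have hA := good_AA h0 h3
  have hx0 := nm_nonneg x
  have h1 : x = ex x.v * (ce (x.w 0 • wd s 0) * ce (x.w 1 • wd s 1)) := by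
    rw [← ce_add]
    have : x.w 0 • wd s 0 + x.w 1 • wd s 1 = x.w := by
      funext k
      fin_cases k <;> simp [wd]
    rw [this]
    exact eq_ex_ce x
  have hw : ∀ j, |x.w j| ≤ nm x ^ 2 := by
    intro j
    have e1 := norm_le_pi_norm x.w j
    rw [Real.norm_eq_abs] at e1
    exact e1.trans (norm_w_le x)
  have h2 := (stp_ex hA x.v k (by have := norm_v_le x; linarith)).mul
    ((stp_ce_dir h0 h3 0 (x.w 0) (nm x) hx0 (hw 0) k hk).mul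
      (stp_ce_dir h0 h3 1 (x.w 1) (nm x) hx0 (hw 1) k hk))
  rw [h1]
  refine h2.mono (by omega)

theorem exists_walk (h0 : 0 ≤ s) (h3 : s ≤ 3) (x y : VV 8 2) :
    ∃ w : (GG (AA s)).Walk x y, (w.length : ℝ) ≤ 18 * (dd (emb (AA s) x) (emb (AA s) y) + 1) := by
  have hA := good_AA h0 h3
  obtain ⟨k, hk⟩ : ∃ k : ℕ, k = ⌈2 * nm ((emb (AA s) x)⁻¹ * emb (AA s) y)⌉₊ := ⟨_, rfl⟩
  have hk1 : 2 * nm ((emb (AA s) x)⁻¹ * emb (AA s) y) ≤ k := by rw [hk]; exact Nat.le_ceil _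
  have hk2 : (k : ℝ) < 2 * nm ((emb (AA s) x)⁻¹ * emb (AA s) y) + 1 := by
    rw [hk]
    exact Nat.ceil_lt_add_one (mul_nonneg (by norm_num) (nm_nonneg _))
  obtain ⟨w, hw⟩ := stp_all h0 h3 _ k hk1 (emb (AA s) x)
  refine ⟨w.copy (rnd_emb hA x) (by rw [mul_inv_cancel_left, rnd_emb hA]), ?_⟩
  rw [SimpleGraph.Walk.length_copy]
  have h4 : (w.length : ℝ) ≤ 9 * k := by exact_mod_cast hw
  unfold dd
  have := nm_nonneg ((emb (AA s) x)⁻¹ * emb (AA s) y)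
  linarith

theorem conn (h0 : 0 ≤ s) (h3 : s ≤ 3) : (GG (AA s)).Connected := by
  have : Nonempty (VV 8 2) := ⟨(0, 0)⟩
  constructor
  intro x y
  obtain ⟨w, -⟩ := exists_walk h0 h3 x y
  exact ⟨w⟩

theorem dist_le (h0 : 0 ≤ s) (h3 : s ≤ 3) (x y : VV 8 2) :
    ((GG (AA s)).dist x y : ℝ) ≤ 18 * (dd (emb (AA s) x) (emb (AA s) y) + 1) := by
  obtain ⟨w, hw⟩ := exists_walk h0 h3 x y
  have : ((GG (AA s)).dist x y : ℝ) ≤ w.length := by exact_mod_cast (GG (AA s)).dist_le w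
  exact this.trans hw

theorem dist_ge (h0 : 0 ≤ s) (h3 : s ≤ 3) (x y : VV 8 2) :
    dd (emb (AA s) x) (emb (AA s) y) ≤ 3 * (GG (AA s)).dist x y :=
  dd_le_dist (good_AA h0 h3) (conn h0 h3) x y

theorem locfin (h0 : 0 ≤ s) (h3 : s ≤ 3) (v : VV 8 2) : ((GG (AA s)).neighborSet v).Finite := by
  refine (count_ball (good_AA h0 h3) (emb (AA s) v) 3).1.subset ?_
  intro w hw
  have := ((adj_iff (good_AA h0 h3) _ _).1 hw).2
  show _ ≤ ((3 : ℕ) : ℝ)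
  push_cast
  exact this

theorem growth (h0 : 0 ≤ s) (h3 : s ≤ 3) : ∃ (v₀ : VV 8 2) (c d : ℕ), ∀ r : ℕ,
    Set.ncard {w | (GG (AA s)).dist v₀ w ≤ r} ≤ c * (r + 1) ^ d := by
  refine ⟨(0, 0), 6 ^ 8 * 18 ^ 2, 12, fun r => ?_⟩
  have h1 : {w | (GG (AA s)).dist (0, 0) w ≤ r} ⊆
      {i : VV 8 2 | dd (emb (AA s) (0, 0)) (emb (AA s) i) ≤ ((3 * r : ℕ) : ℝ)} := by
    intro w hw
    have hw' : (GG (AA s)).dist (0, 0) w ≤ r := hw
    have h2 := dist_ge h0 h3 (0, 0) w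
    have h4 : ((GG (AA s)).dist (0, 0) w : ℝ) ≤ r := by exact_mod_cast hw'
    show _ ≤ ((3 * r : ℕ) : ℝ)
    push_cast
    linarith
  have h2 := count_ball (good_AA h0 h3) (emb (AA s) (0, 0)) (3 * r)
  calc Set.ncard {w | (GG (AA s)).dist (0, 0) w ≤ r} ≤ _ := Set.ncard_le_ncard h1 h2.1
    _ ≤ _ := h2.2
    _ ≤ (6 * (r + 1)) ^ 8 * (18 * (r + 1) ^ 2) ^ 2 := by
        apply Nat.mul_le_mul
        · apply Nat.pow_le_pow_left; omega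
        · apply Nat.pow_le_pow_left
          have e1 : 2 * (3 * r) ^ 2 + 2 = 18 * r ^ 2 + 2 := by ring
          have e2 : 18 * (r + 1) ^ 2 = 18 * r ^ 2 + (36 * r + 18) := by ring
          rw [e1, e2]
          omega
    _ = 6 ^ 8 * 18 ^ 2 * (r + 1) ^ 12 := by ring

theorem asd (h0 : 0 ≤ s) (h3 : s ≤ 3) : ∃ n : ℕ, ∀ R : ℕ, ∃ (ι : Type) (U : ι → Set (VV 8 2)) (D : ℕ),
    (∀ i, ∀ x ∈ U i, ∀ y ∈ U i, (GG (AA s)).dist x y ≤ D) ∧
    (∀ x, ∃ i, x ∈ U i) ∧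
    ∀ x, {i | ∃ y ∈ U i, (GG (AA s)).dist x y ≤ R}.Finite ∧
      Set.ncard {i | ∃ y ∈ U i, (GG (AA s)).dist x y ≤ R} ≤ n + 1 := by
  have hA := good_AA h0 h3
  refine ⟨(2 * 4 + 2) ^ 8 * (2 * 4 ^ 2 + 2) ^ 2, fun R => ?_⟩
  obtain ⟨l, hl⟩ : ∃ l : ℝ, l = (R : ℝ) + 1 := ⟨_, rfl⟩
  have hl0 : 0 < l := by rw [hl]; positivity
  refine ⟨VV 8 2, fun i => {x | rnd (dil l⁻¹ (emb (AA s) x)) = i}, 18 * (2 * (R + 1) + 1), ?_, ?_, ?_⟩
  · intro i x hx y hy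
    have hx' : rnd (dil l⁻¹ (emb (AA s) x)) = i := hx
    have hy' : rnd (dil l⁻¹ (emb (AA s) y)) = i := hy
    have e1 := dd_rnd hA (dil l⁻¹ (emb (AA s) x))
    have e2 := dd_rnd hA (dil l⁻¹ (emb (AA s) y))
    rw [hx'] at e1
    rw [hy', dd_comm hA] at e2
    have e3 := dd_tri hA (dil l⁻¹ (emb (AA s) x)) (emb (AA s) i) (dil l⁻¹ (emb (AA s) y))
    rw [dd_dil, abs_of_pos (inv_pos.2 hl0)] at e3
    have e4 : dd (emb (AA s) x) (emb (AA s) y) ≤ 2 * l := by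
      have : l⁻¹ * dd (emb (AA s) x) (emb (AA s) y) ≤ 2 := by linarith
      rw [inv_mul_le_iff₀ hl0] at this
      linarith
    have e5 := dist_le h0 h3 x y
    have e6 : ((GG (AA s)).dist x y : ℝ) ≤ ((18 * (2 * (R + 1) + 1) : ℕ) : ℝ) := by
      push_cast
      rw [hl] at e4
      linarith
    exact_mod_cast e6
  · intro x
    exact ⟨_, rfl⟩
  · intro x
    have hsub : {i | ∃ y ∈ {y : VV 8 2 | rnd (dil l⁻¹ (emb (AA s) y)) = i}, (GG (AA s)).dist x y ≤ R} ⊆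
        {i : VV 8 2 | dd (dil l⁻¹ (emb (AA s) x)) (emb (AA s) i) ≤ ((4 : ℕ) : ℝ)} := by
      rintro i ⟨y, hy, hxy⟩
      have hy' : rnd (dil l⁻¹ (emb (AA s) y)) = i := hy
      have e1 := dd_rnd hA (dil l⁻¹ (emb (AA s) y))
      rw [hy'] at e1
      have e2 := dist_ge h0 h3 x y
      have e3 : ((GG (AA s)).dist x y : ℝ) ≤ R := by exact_mod_cast hxy
      have e4 := dd_tri hA (dil l⁻¹ (emb (AA s) x)) (dil l⁻¹ (emb (AA s) y)) (emb (AA s) i)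
      rw [dd_dil, abs_of_pos (inv_pos.2 hl0)] at e4
      have e5 : l⁻¹ * dd (emb (AA s) x) (emb (AA s) y) ≤ 3 := by
        rw [inv_mul_le_iff₀ hl0]
        rw [hl]
        linarith
      show _ ≤ ((4 : ℕ) : ℝ)
      push_cast
      linarith
    have h2 := count_ball hA (dil l⁻¹ (emb (AA s) x)) 4
    exact ⟨h2.1.subset hsub, (Set.ncard_le_ncard hsub h2.1).trans (h2.2.trans (Nat.le_succ _))⟩

theorem ctrans (h0 : 0 ≤ s) (h3 : s ≤ 3) : ∃ K C : ℝ, 0 < K ∧ ∀ x y : VV 8 2,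
    ∃ f : VV 8 2 → VV 8 2,
      (∀ a b : VV 8 2, ((GG (AA s)).dist a b : ℝ) / K - C ≤ ((GG (AA s)).dist (f a) (f b) : ℝ) ∧
        ((GG (AA s)).dist (f a) (f b) : ℝ) ≤ K * ((GG (AA s)).dist a b : ℝ) + C) ∧
      (∀ z : VV 8 2, ∃ a : VV 8 2, ((GG (AA s)).dist (f a) z : ℝ) ≤ C) ∧
      ((GG (AA s)).dist (f x) y : ℝ) ≤ C := by
  have hA := good_AA h0 h3
  refine ⟨54, 54, by norm_num, fun x y => ?_⟩
  let e := emb (AA s)
  refine ⟨fun z => rnd (e y * (e x)⁻¹ * e z), fun a b => ?_, fun z => ?_, ?_⟩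
  · have r1 := dd_rnd hA (e y * (e x)⁻¹ * e a)
    have r2 := dd_rnd hA (e y * (e x)⁻¹ * e b)
    have r3 : dd (e y * (e x)⁻¹ * e a) (e y * (e x)⁻¹ * e b) = dd (e a) (e b) := dd_left _ _ _
    obtain ⟨fa, hfa⟩ : ∃ fa, fa = rnd (e y * (e x)⁻¹ * e a) := ⟨_, rfl⟩
    obtain ⟨fb, hfb⟩ : ∃ fb, fb = rnd (e y * (e x)⁻¹ * e b) := ⟨_, rfl⟩
    show ((GG (AA s)).dist a b : ℝ) / 54 - 54 ≤ ((GG (AA s)).dist (rnd (e y * (e x)⁻¹ * e a)) (rnd (e y * (e x)⁻¹ * e b)) : ℝ) ∧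
        ((GG (AA s)).dist (rnd (e y * (e x)⁻¹ * e a)) (rnd (e y * (e x)⁻¹ * e b)) : ℝ) ≤ 54 * ((GG (AA s)).dist a b : ℝ) + 54
    rw [← hfa] at r1 ⊢
    rw [← hfb] at r2 ⊢
    have t1 := dd_tri hA (e fa) (e y * (e x)⁻¹ * e a) (e fb)
    have t2 := dd_tri hA (e y * (e x)⁻¹ * e a) (e y * (e x)⁻¹ * e b) (e fb)
    have t3 := dd_tri hA (e y * (e x)⁻¹ * e a) (e fa) (e y * (e x)⁻¹ * e b)
    have t4 := dd_tri hA (e fa) (e fb) (e y * (e x)⁻¹ * e b)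
    have c1 := dd_comm hA (e fa) (e y * (e x)⁻¹ * e a)
    have c2 := dd_comm hA (e fb) (e y * (e x)⁻¹ * e b)
    have u1 := dist_le h0 h3 a b
    have u2 := dist_ge h0 h3 a b
    have u3 := dist_le h0 h3 fa fb
    have u4 := dist_ge h0 h3 fa fb
    change _ ≤ 18 * (dd (e a) (e b) + 1) at u1
    change dd (e a) (e b) ≤ _ at u2
    change _ ≤ 18 * (dd (e fa) (e fb) + 1) at u3
    change dd (e fa) (e fb) ≤ _ at u4
    change dd _ (e fa) ≤ 1 at r1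
    change dd _ (e fb) ≤ 1 at r2
    constructor
    · have : ((GG (AA s)).dist a b : ℝ) ≤ 54 * ((GG (AA s)).dist fa fb : ℝ) + 54 * 54 := by
        linarith
      rw [sub_le_iff_le_add, div_le_iff₀ (by norm_num)]
      linarith
    · linarith
  · refine ⟨rnd (e x * (e y)⁻¹ * e z), ?_⟩
    obtain ⟨a, ha⟩ : ∃ a, a = rnd (e x * (e y)⁻¹ * e z) := ⟨_, rfl⟩
    have r1 := dd_rnd hA (e x * (e y)⁻¹ * e z)
    rw [← ha] at r1 ⊢
    have r2 := dd_rnd hA (e y * (e x)⁻¹ * e a)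
    obtain ⟨fa, hfa⟩ : ∃ fa, fa = rnd (e y * (e x)⁻¹ * e a) := ⟨_, rfl⟩
    show ((GG (AA s)).dist (rnd (e y * (e x)⁻¹ * e a)) z : ℝ) ≤ 54
    rw [← hfa] at r2 ⊢
    have r3 : dd (e y * (e x)⁻¹ * e a) (e z) = dd (e a) (e x * (e y)⁻¹ * e z) := by
      rw [← dd_left (e x * (e y)⁻¹) (e y * (e x)⁻¹ * e a) (e z)]
      congr 1
      group
    have c1 := dd_comm hA (e fa) (e y * (e x)⁻¹ * e a)
    have c2 := dd_comm hA (e a) (e x * (e y)⁻¹ * e z)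
    have t1 := dd_tri hA (e fa) (e y * (e x)⁻¹ * e a) (e z)
    have u3 := dist_le h0 h3 fa z
    change _ ≤ 18 * (dd (e fa) (e z) + 1) at u3
    change dd _ (e a) ≤ 1 at r1
    change dd _ (e fa) ≤ 1 at r2
    linarith
  · show ((GG (AA s)).dist (rnd (e y * (e x)⁻¹ * e x)) y : ℝ) ≤ 54
    have : rnd (e y * (e x)⁻¹ * e x) = y := by
      rw [inv_mul_cancel_right]
      exact rnd_emb hA y
    rw [this, SimpleGraph.dist_self]
    norm_num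

end

end Pool.Agent.H763
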