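import Pool.Agent.H763.Defs
import Pool.Agent.Helper183.Gar.Mean

set_option autoImplicit false

open Filter Topology

namespace Pool.Agent.H763

open Gardner (Bdd)

variable {E W : Type} [NormedAddCommGroup E] [NormedSpace ℝ E] [NormedAddCommGroup W]
  [NormedSpace ℝ W] {A : E →ₗ[ℝ] E →ₗ[ℝ] W}

/-- right invariant means -/
structure RMean (M : (NG A → ℝ) → ℝ) : Prop where
  add : ∀ f g, Bdd f → Bdd g → M (fun x => f x + g x) = M f + M g
  pos : ∀ f, Bdd f → (∀ x, 0 ≤ f x) → 0 ≤ M f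
  one : M (fun _ => 1) = 1
  bd : ∀ f C, (∀ x, |f x| ≤ C) → |M f| ≤ C
  inv : ∀ f g, Bdd f → M (fun x => f (x * g)) = M f

theorem exists_rmean (A : E →ₗ[ℝ] E →ₗ[ℝ] W) : ∃ M : (NG A → ℝ) → ℝ, RMean M := by
  obtain ⟨M1, a1, p1, o1, b1, i1⟩ := Gardner.exists_mean E
  obtain ⟨M2, a2, p2, o2, b2, i2⟩ := Gardner.exists_mean W
  have hsl : ∀ f : NG A → ℝ, Bdd f → ∀ v, Bdd (fun w => f ⟨v, w⟩) := by
    rintro f ⟨C, hC⟩ v
    exact ⟨C, fun w => hC _⟩
  have hout : ∀ f : NG A → ℝ, Bdd f → Bdd (fun v => M2 (fun w => f ⟨v, w⟩)) := by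
    rintro f ⟨C, hC⟩
    exact ⟨C, fun v => b2 _ C fun w => hC _⟩
  refine ⟨fun f => M1 (fun v => M2 (fun w => f ⟨v, w⟩)), ?_, ?_, ?_, ?_, ?_⟩
  · intro f g hf hg
    have h1 : (fun v => M2 (fun w => f ⟨v, w⟩ + g ⟨v, w⟩)) =
        (fun v => M2 (fun w => f ⟨v, w⟩)) + (fun v => M2 (fun w => g ⟨v, w⟩)) := by
      funext v
      exact a2 _ _ (hsl f hf v) (hsl g hg v)
    change M1 (fun v => M2 (fun w => f ⟨v, w⟩ + g ⟨v, w⟩)) = _
    rw [h1]
    exact a1 _ _ (hout f hf) (hout g hg)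
  · intro f hf h0
    exact p1 _ (hout f hf) fun v => p2 _ (hsl f hf v) fun w => h0 _
  · change M1 (fun v => M2 (fun w => 1)) = 1
    rw [o2, o1]
  · intro f C hC
    exact b1 _ C fun v => b2 _ C fun w => hC _
  · intro f g hf
    change M1 (fun v => M2 (fun w => f (⟨v, w⟩ * g))) = M1 (fun v => M2 (fun w => f ⟨v, w⟩))
    have h1 : ∀ v, M2 (fun w => f (⟨v, w⟩ * g)) = M2 (fun w => f ⟨g.v + v, w⟩) := by
      intro v
      rw [← i2 (fun w => f ⟨g.v + v, w⟩) (g.w + A v g.v) (hsl f hf _)]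
      congr 1
      funext w
      congr 1
      ext
      · simp [add_comm]
      · simp only [mul_w]
        abel
    simp_rw [h1]
    exact i1 (fun v => M2 (fun w => f ⟨v, w⟩)) g.v (hout f hf)

theorem RMean.smul {M : (NG A → ℝ) → ℝ} (hM : RMean M) {f : NG A → ℝ} (hf : Bdd f) (c : ℝ) :
    M (fun x => c * f x) = c * M f := by
  obtain ⟨C, hC⟩ := hf
  have hb : ∀ c : ℝ, Bdd (fun x => c * f x) := by
    intro c
    refine ⟨|c| * C, fun x => ?_⟩
    rw [abs_mul]
    exact mul_le_mul_of_nonneg_left (hC x) (abs_nonneg c)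
  let φ : ℝ →+ ℝ := AddMonoidHom.mk' (fun c => M (fun x => c * f x)) (by
    intro a b
    rw [← hM.add _ _ (hb a) (hb b)]
    congr 1
    funext x
    ring)
  have hcont : Continuous φ := by
    refine AddMonoidHomClass.continuous_of_bound φ C (fun c => ?_)
    rw [Real.norm_eq_abs, Real.norm_eq_abs]
    change |M (fun x => c * f x)| ≤ _
    refine hM.bd _ _ fun x => ?_
    rw [abs_mul, mul_comm]
    exact mul_le_mul_of_nonneg_right (hC x) (abs_nonneg c)
  have h := map_real_smul φ hcont c 1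
  simp only [smul_eq_mul, mul_one] at h
  have h1 : φ c = M (fun x => c * f x) := rfl
  have h2 : φ 1 = M f := by
    change M (fun x => 1 * f x) = M f
    simp
  rw [h1, h2] at h
  exact h

theorem RMean.const {M : (NG A → ℝ) → ℝ} (hM : RMean M) (c : ℝ) : M (fun _ => c) = c := by
  have h := hM.smul (f := fun _ => 1) ⟨1, fun _ => by simp⟩ c
  simpa [hM.one] using h

theorem RMean.exists_lt {M : (NG A → ℝ) → ℝ} (hM : RMean M) {f : NG A → ℝ} (hf : Bdd f) {c : ℝ}
    (h : M f < c) : ∃ x, f x < c := by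
  by_contra hcon
  push Not at hcon
  have hb : Bdd (fun x => f x + (-c)) := by
    obtain ⟨C, hC⟩ := hf
    exact ⟨C + |(-c)|, fun x => (abs_add_le _ _).trans (add_le_add (hC x) le_rfl)⟩
  have h1 := hM.pos _ hb (fun x => by linarith [hcon x])
  rw [hM.add _ _ hf ⟨|(-c)|, fun _ => le_rfl⟩, hM.const] at h1
  linarith

theorem RMean.sum {M : (NG A → ℝ) → ℝ} (hM : RMean M) {ι : Type} (s : Finset ι)
    (f : ι → NG A → ℝ) (hf : ∀ i, Bdd (f i)) :
    Bdd (fun x => ∑ i ∈ s, f i x) ∧ M (fun x => ∑ i ∈ s, f i x) = ∑ i ∈ s, M (f i) := by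
  classical
  induction s using Finset.induction_on with
  | empty =>
    refine ⟨⟨0, fun x => by simp⟩, ?_⟩
    simpa using hM.const 0
  | insert a s ha ih =>
    have h1 : (fun x => ∑ i ∈ insert a s, f i x) = (fun x => f a x + ∑ i ∈ s, f i x) := by
      funext x
      rw [Finset.sum_insert ha]
    rw [h1, hM.add _ _ (hf a) ih.1, Finset.sum_insert ha, ih.2]
    exact ⟨(hf a).add' ih.1, rfl⟩

/-- the second difference -/
def sd (u : NG A → ℝ) (g x : NG A) : ℝ := u (x * g * g) - 2 * u (x * g) + u x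

theorem sd_bdd {u : NG A → ℝ} {K : ℝ} (hu : ∀ x y, |u x - u y| ≤ K * (dd x y + 1)) (g : NG A) :
    Bdd (fun x => sd u g x ^ 2) := by
  have h : ∀ x, |u (x * g) - u x| ≤ K * (nm g + 1) := by
    intro x
    have := hu x (x * g)
    rw [abs_sub_comm]
    refine this.trans (le_of_eq ?_)
    unfold dd
    congr 3
    group
  refine ⟨(2 * (K * (nm g + 1))) ^ 2, fun x => ?_⟩
  rw [abs_pow]
  refine pow_le_pow_left₀ (abs_nonneg _) ?_ 2
  have h1 := h x
  have h2 := h (x * g)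
  unfold sd
  calc |u (x * g * g) - 2 * u (x * g) + u x| = |(u (x * g * g) - u (x * g)) - (u (x * g) - u x)| := by
        congr 1; ring
    _ ≤ |u (x * g * g) - u (x * g)| + |u (x * g) - u x| := abs_sub _ _
    _ ≤ 2 * (K * (nm g + 1)) := by linarith

theorem ex_sq (hA : Good A) (v : E) : (ex v : NG A) * ex v = ex ((2 : ℝ) • v) := by
  ext
  · simp [two_smul]
  · simp [hA.alt]

theorem defect_tendsto (hA : Good A) {M : (NG A → ℝ) → ℝ} (hM : RMean M) {u : NG A → ℝ} {K : ℝ}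
    (hu : ∀ x y, |u x - u y| ≤ K * (dd x y + 1)) (v : E) :
    Tendsto (fun k : ℕ => M (fun x => sd u (ex ((2 : ℝ) ^ k • v)) x ^ 2) / 4 ^ k) atTop (𝓝 0) := by
  have hfb : ∀ g : NG A, Bdd (fun x => (u (x * g) - u x) ^ 2) := by
    intro g
    refine ⟨(K * (nm g + 1)) ^ 2, fun x => ?_⟩
    rw [abs_pow]
    refine pow_le_pow_left₀ (abs_nonneg _) ?_ 2
    have := hu x (x * g)
    rw [abs_sub_comm]
    refine this.trans (le_of_eq ?_)
    unfold dd
    congr 3
    group
  let a : ℕ → ℝ := fun k => M (fun x => (u (x * ex ((2 : ℝ) ^ k • v)) - u x) ^ 2)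
  have ha0 : ∀ k, 0 ≤ a k := fun k => hM.pos _ (hfb _) fun x => sq_nonneg _
  have key : ∀ k, M (fun x => sd u (ex ((2 : ℝ) ^ k • v)) x ^ 2) = 4 * a k - a (k + 1) := by
    intro k
    have hg : (ex ((2 : ℝ) ^ (k + 1) • v) : NG A) = ex ((2 : ℝ) ^ k • v) * ex ((2 : ℝ) ^ k • v) := by
      rw [ex_sq hA, smul_smul, pow_succ, mul_comm]
    set g : NG A := ex ((2 : ℝ) ^ k • v) with hgdef
    have h1 : M (fun x => sd u g x ^ 2) + a (k + 1) = 4 * a k := by
      have e1 : a (k + 1) = M (fun x => (u (x * g * g) - u x) ^ 2) := by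
        show M _ = M _
        rw [hg]
        simp_rw [mul_assoc]
      have hb2 : Bdd (fun x => (u (x * g * g) - u x) ^ 2) := by
        have := hfb (g * g)
        simpa only [mul_assoc] using this
      rw [e1, ← hM.add _ _ (sd_bdd hu g) hb2]
      have e2 : (fun x => sd u g x ^ 2 + (u (x * g * g) - u x) ^ 2) =
          fun x => 2 * (u (x * g) - u x) ^ 2 + 2 * (u (x * g * g) - u (x * g)) ^ 2 := by
        funext x
        unfold sd
        ring
      have hb3 : Bdd (fun x => (u (x * g * g) - u (x * g)) ^ 2) := by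
        obtain ⟨C, hC⟩ := hfb g
        exact ⟨C, fun x => hC (x * g)⟩
      have hb4 : Bdd (fun x => 2 * (u (x * g) - u x) ^ 2) := by
        obtain ⟨C, hC⟩ := hfb g
        refine ⟨2 * C, fun x => ?_⟩
        rw [abs_mul, abs_two]
        exact mul_le_mul_of_nonneg_left (hC x) (by norm_num)
      have hb5 : Bdd (fun x => 2 * (u (x * g * g) - u (x * g)) ^ 2) := by
        obtain ⟨C, hC⟩ := hb3
        refine ⟨2 * C, fun x => ?_⟩
        rw [abs_mul, abs_two]
        exact mul_le_mul_of_nonneg_left (hC x) (by norm_num)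
      rw [e2, hM.add _ _ hb4 hb5, hM.smul (hfb g), hM.smul hb3]
      have e3 : M (fun x => (u (x * g * g) - u (x * g)) ^ 2) = a k :=
        hM.inv (fun x => (u (x * g) - u x) ^ 2) g (hfb g)
      rw [e3]
      show 2 * a k + 2 * a k = 4 * a k
      ring
    linarith
  let e : ℕ → ℝ := fun k => a k / 4 ^ k
  have he0 : ∀ k, 0 ≤ e k := fun k => div_nonneg (ha0 k) (by positivity)
  have heq : ∀ k, M (fun x => sd u (ex ((2 : ℝ) ^ k • v)) x ^ 2) / 4 ^ k = 4 * (e k - e (k + 1)) := by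
    intro k
    rw [key k]
    show (4 * a k - a (k + 1)) / 4 ^ k = 4 * (a k / 4 ^ k - a (k + 1) / 4 ^ (k + 1))
    rw [pow_succ]
    field_simp
  have hanti : Antitone e := by
    apply antitone_nat_of_succ_le
    intro k
    have h1 : 0 ≤ M (fun x => sd u (ex ((2 : ℝ) ^ k • v)) x ^ 2) / 4 ^ k :=
      div_nonneg (hM.pos _ (sd_bdd hu _) fun x => sq_nonneg _) (by positivity)
    rw [heq k] at h1
    linarith
  have hlim := tendsto_atTop_ciInf hanti ⟨0, by rintro _ ⟨k, rfl⟩; exact he0 k⟩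
  have hlim2 := hlim.comp (tendsto_add_atTop_nat 1)
  have h := (hlim.sub hlim2).const_mul 4
  simp only [sub_self, mul_zero] at h
  refine h.congr fun k => ?_
  rw [heq k]
  rfl

end Pool.Agent.H763
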