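import Pool.Agent.H763.Pres

set_option autoImplicit false

namespace Pool.Agent.H763

section
variable {H : Type} [Group H] {k : ℕ} (g : Fin k → H) (S : Set H) (hg : Set.range g = S)

include hg

theorem step_walk (x : H) (a : Fin k × Bool) :
    ∃ w : (SimpleGraph.fromRel (fun g h : H => ∃ s ∈ S, h = g * s)).Walk x
      (x * cond a.2 (g a.1) (g a.1)⁻¹), w.length ≤ 1 := by
  by_cases h : x = x * cond a.2 (g a.1) (g a.1)⁻¹
  · rw [← h]
    exact ⟨SimpleGraph.Walk.nil, by simp⟩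
  · have hadj : (SimpleGraph.fromRel (fun g h : H => ∃ s ∈ S, h = g * s)).Adj x
      (x * cond a.2 (g a.1) (g a.1)⁻¹) := by
      rw [SimpleGraph.fromRel_adj]
      refine ⟨h, ?_⟩
      obtain ⟨i, b⟩ := a
      cases b with
      | true => exact Or.inl ⟨g i, by rw [← hg]; exact ⟨i, rfl⟩, rfl⟩
      | false => exact Or.inr ⟨g i, by rw [← hg]; exact ⟨i, rfl⟩, by simp⟩
    exact ⟨hadj.toWalk, by simp⟩

theorem list_walk (L : List (Fin k × Bool)) : ∀ x : H,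
    ∃ w : (SimpleGraph.fromRel (fun g h : H => ∃ s ∈ S, h = g * s)).Walk x
      (x * (L.map fun a => cond a.2 (g a.1) (g a.1)⁻¹).prod), w.length ≤ L.length := by
  induction L with
  | nil =>
    intro x
    exact ⟨(SimpleGraph.Walk.nil' x).copy rfl (by simp), by simp⟩
  | cons a L ih =>
    intro x
    obtain ⟨w1, h1⟩ := step_walk g S hg x a
    obtain ⟨w2, h2⟩ := ih (x * cond a.2 (g a.1) (g a.1)⁻¹)
    refine ⟨(w1.append w2).copy rfl (by rw [List.map_cons, List.prod_cons, mul_assoc]), ?_⟩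
    rw [SimpleGraph.Walk.length_copy, SimpleGraph.Walk.length_append, List.length_cons]
    omega

theorem word_walk (w : FreeGroup (Fin k)) (x : H) :
    ∃ p : (SimpleGraph.fromRel (fun g h : H => ∃ s ∈ S, h = g * s)).Walk x (x * FreeGroup.lift g w),
      p.length ≤ w.norm := by
  obtain ⟨p, hp⟩ := list_walk g S hg w.toWord x
  rw [← FreeGroup.lift_mk, FreeGroup.mk_toWord] at p
  obtain ⟨p, hp⟩ := list_walk g S hg w.toWord x
  refine ⟨p.copy rfl (by rw [← FreeGroup.lift_mk, FreeGroup.mk_toWord]), ?_⟩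
  rw [SimpleGraph.Walk.length_copy]
  exact hp

theorem walk_word {x y : H} (p : (SimpleGraph.fromRel (fun g h : H => ∃ s ∈ S, h = g * s)).Walk x y) :
    ∃ w : FreeGroup (Fin k), w.norm ≤ p.length ∧ x * FreeGroup.lift g w = y := by
  induction p with
  | nil => exact ⟨1, by simp, by simp⟩
  | @cons a b c hab p ih =>
    obtain ⟨w, hw, hw'⟩ := ih
    rw [SimpleGraph.fromRel_adj] at hab
    rw [SimpleGraph.Walk.length_cons]
    rcases hab.2 with ⟨s, hs, e⟩ | ⟨s, hs, e⟩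
    · rw [← hg] at hs
      obtain ⟨i, rfl⟩ := hs
      refine ⟨FreeGroup.of i * w, ?_, ?_⟩
      · refine (FreeGroup.norm_mul_le _ _).trans ?_
        rw [FreeGroup.norm_of]
        omega
      · rw [map_mul, FreeGroup.lift_apply_of, ← mul_assoc, ← e, hw']
    · rw [← hg] at hs
      obtain ⟨i, rfl⟩ := hs
      refine ⟨(FreeGroup.of i)⁻¹ * w, ?_, ?_⟩
      · refine (FreeGroup.norm_mul_le _ _).trans ?_
        rw [FreeGroup.norm_inv_eq, FreeGroup.norm_of]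
        omega
      · rw [map_mul, map_inv, FreeGroup.lift_apply_of, ← mul_assoc, e, mul_inv_cancel_right, hw']

end

theorem qik_of_real {V : Type} (G : SimpleGraph V) {H : Type} [Group H] (S : Set H) (hS : S.Finite)
    (hcl : Subgroup.closure S = ⊤) (φ : V → H) (K C : ℝ) (hK : 0 < K)
    (h1 : ∀ a b : V,
      (G.dist a b : ℝ) / K - C ≤
        ((SimpleGraph.fromRel (fun g h : H => ∃ s ∈ S, h = g * s)).dist (φ a) (φ b) : ℝ) ∧
      ((SimpleGraph.fromRel (fun g h : H => ∃ s ∈ S, h = g * s)).dist (φ a) (φ b) : ℝ) ≤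
        K * (G.dist a b : ℝ) + C)
    (h2 : ∀ h : H, ∃ a : V,
      ((SimpleGraph.fromRel (fun g h : H => ∃ s ∈ S, h = g * s)).dist (φ a) h : ℝ) ≤ C) :
    ∃ (k : ℕ) (π : FreeGroup (Fin k) →* H), Function.Surjective π ∧ ∃ N, QIK G π φ N := by
  obtain ⟨k, g, -, hg⟩ := hS.fin_param
  have hsurj : Function.Surjective (FreeGroup.lift g) := by
    rw [← MonoidHom.range_eq_top, FreeGroup.range_lift_eq_closure, hg, hcl]
  obtain ⟨Γ, hΓ⟩ : ∃ Γ, Γ = SimpleGraph.fromRel (fun g h : H => ∃ s ∈ S, h = g * s) := ⟨_, rfl⟩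
  have hw1 : ∀ (w : FreeGroup (Fin k)) (x : H), ∃ p : Γ.Walk x (x * FreeGroup.lift g w),
      p.length ≤ w.norm := by
    rw [hΓ]
    exact word_walk g S hg
  have hw2 : ∀ {x y : H} (p : Γ.Walk x y),
      ∃ w : FreeGroup (Fin k), w.norm ≤ p.length ∧ x * FreeGroup.lift g w = y := by
    rw [hΓ]
    exact fun p => walk_word g S hg p
  rw [← hΓ] at h1 h2
  have hconn : ∀ x y, Γ.Reachable x y := by
    intro x y
    obtain ⟨w, hw⟩ := hsurj (x⁻¹ * y)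
    obtain ⟨p, -⟩ := hw1 w x
    rw [hw, mul_inv_cancel_left] at p
    exact ⟨p⟩
  have hdw : ∀ (w : FreeGroup (Fin k)) (x : H), Γ.dist x (x * FreeGroup.lift g w) ≤ w.norm := by
    intro w x
    obtain ⟨p, hp⟩ := hw1 w x
    exact (Γ.dist_le p).trans hp
  have hwd : ∀ x y, ∃ w : FreeGroup (Fin k), w.norm ≤ Γ.dist x y ∧ x * FreeGroup.lift g w = y := by
    intro x y
    obtain ⟨p, hp⟩ := (hconn x y).exists_walk_length_eq_dist
    rw [← hp]
    exact hw2 p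
  refine ⟨k, FreeGroup.lift g, hsurj, ⌈K⌉₊ + ⌈|C|⌉₊ + ⌈K * |C|⌉₊, ?_, ?_, ?_⟩
  · intro x y w hw
    have e1 := (h1 x y).1
    have e2 := hdw w (φ x)
    rw [hw] at e2
    have e3 : (Γ.dist (φ x) (φ y) : ℝ) ≤ w.norm := by exact_mod_cast e2
    have e4 : (G.dist x y : ℝ) ≤ K * (w.norm + C) := by
      have : (G.dist x y : ℝ) / K ≤ w.norm + C := by linarith
      rw [div_le_iff₀ hK] at this
      linarith
    have k1 := Nat.le_ceil K
    have k2 := Nat.le_ceil |C|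
    have k3 := Nat.le_ceil (K * |C|)
    have k4 : K * C ≤ K * |C| := mul_le_mul_of_nonneg_left (le_abs_self C) hK.le
    have k5 : (0 : ℝ) ≤ ⌈|C|⌉₊ := Nat.cast_nonneg _
    have k6 : (0 : ℝ) ≤ ⌈K⌉₊ := Nat.cast_nonneg _
    have k7 : (0 : ℝ) ≤ ⌈K * |C|⌉₊ := Nat.cast_nonneg _
    have k8 : (0 : ℝ) ≤ w.norm := Nat.cast_nonneg _
    have e5 : (G.dist x y : ℝ) ≤
        (((⌈K⌉₊ + ⌈|C|⌉₊ + ⌈K * |C|⌉₊) * w.norm + (⌈K⌉₊ + ⌈|C|⌉₊ + ⌈K * |C|⌉₊) : ℕ) : ℝ) := by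
      push_cast
      have k9 : K * w.norm ≤ (⌈K⌉₊ + ⌈|C|⌉₊ + ⌈K * |C|⌉₊ : ℝ) * w.norm :=
        mul_le_mul_of_nonneg_right (by linarith) k8
      linarith
    exact_mod_cast e5
  · intro x y
    obtain ⟨w, hw, hw'⟩ := hwd (φ x) (φ y)
    refine ⟨w, ?_, hw'⟩
    have e1 := (h1 x y).2
    have e3 : (w.norm : ℝ) ≤ Γ.dist (φ x) (φ y) := by exact_mod_cast hw
    have k1 := Nat.le_ceil K
    have k2 := Nat.le_ceil |C|
    have k3 := Nat.le_ceil (K * |C|)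
    have k4 := le_abs_self C
    have k5 : (0 : ℝ) ≤ ⌈|C|⌉₊ := Nat.cast_nonneg _
    have k6 : (0 : ℝ) ≤ ⌈K⌉₊ := Nat.cast_nonneg _
    have k7 : (0 : ℝ) ≤ ⌈K * |C|⌉₊ := Nat.cast_nonneg _
    have k8 : (0 : ℝ) ≤ G.dist x y := Nat.cast_nonneg _
    have e5 : (w.norm : ℝ) ≤
        (((⌈K⌉₊ + ⌈|C|⌉₊ + ⌈K * |C|⌉₊) * G.dist x y + (⌈K⌉₊ + ⌈|C|⌉₊ + ⌈K * |C|⌉₊) : ℕ) : ℝ) := by
      push_cast
      have k9 : K * G.dist x y ≤ (⌈K⌉₊ + ⌈|C|⌉₊ + ⌈K * |C|⌉₊ : ℝ) * G.dist x y :=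
        mul_le_mul_of_nonneg_right (by linarith) k8
      linarith
    exact_mod_cast e5
  · intro h
    obtain ⟨a, ha⟩ := h2 h
    obtain ⟨w, hw, hw'⟩ := hwd (φ a) h
    refine ⟨a, w, ?_, hw'⟩
    have e3 : (w.norm : ℝ) ≤ Γ.dist (φ a) h := by exact_mod_cast hw
    have k2 := Nat.le_ceil |C|
    have k4 := le_abs_self C
    have k6 : (0 : ℝ) ≤ ⌈K⌉₊ := Nat.cast_nonneg _
    have k7 : (0 : ℝ) ≤ ⌈K * |C|⌉₊ := Nat.cast_nonneg _
    have e5 : (w.norm : ℝ) ≤ ((⌈K⌉₊ + ⌈|C|⌉₊ + ⌈K * |C|⌉₊ : ℕ) : ℝ) := by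
      push_cast
      linarith
    exact_mod_cast e5

end Pool.Agent.H763
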